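import Pool.Agent.H96R2.EQP.A
import Pool.Agent.TH423.SH.PSUP

/-!
Zk41/P5 (helper41): primes in a progression and in several classes modulo the primes of a finite set.
-/

set_option autoImplicit false

open Finset H343E

namespace Pool.Agent.Zk41.P5

/-- from single classes to products of sets of classes -/
theorem cls (J : Finset ℕ) (w : ℕ → ℝ) (Om : ℕ → Finset ℕ) (E : ℝ) :
    ∀ T : Finset ℕ, (∀ p ∈ T, p.Prime ∧ ∀ c ∈ Om p, c < p) → ∀ (M r : ℕ) (m0 : ℝ), 0 < M → (∀ p ∈ T, ¬ p ∣ M) →
    (∀ s, s ≡ r [MOD M] → (∀ p ∈ T, s % p ∈ Om p) →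
      |((J.filter (fun n => n ≡ s [MOD M * ∏ p ∈ T, p])).card : ℝ) - m0 * ∏ p ∈ T, w p| ≤ E) →
    |((J.filter (fun n => n ≡ r [MOD M] ∧ ∀ p ∈ T, n % p ∈ Om p)).card : ℝ) -
      m0 * ∏ p ∈ T, ((Om p).card * w p)| ≤ (∏ p ∈ T, ((Om p).card : ℝ)) * E := by
  classical
  intro T
  induction T using Finset.induction_on with
  | empty =>
    intro _ M r m0 _ _ h
    have h1 := h r rfl (fun p hp => absurd hp (notMem_empty p))
    simp only [prod_empty, mul_one, notMem_empty, false_imp_iff, implies_true, and_true, one_mul] at h1 ⊢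
    exact h1
  | insert p T hp ih =>
    intro hT M r m0 hM hcop h
    obtain ⟨hpp, hOp⟩ := hT p (mem_insert_self p T)
    have hT' : ∀ q ∈ T, q.Prime ∧ ∀ c ∈ Om q, c < q := fun q hq => hT q (mem_insert_of_mem hq)
    have hpM : Nat.Coprime M p := ((Nat.Prime.coprime_iff_not_dvd hpp).2 (hcop p (mem_insert_self p T))).symm
    have hex : ∀ c : ℕ, ∃ s, s ≡ r [MOD M] ∧ s ≡ c [MOD p] := fun c =>
      ⟨(Nat.chineseRemainder hpM r c).1, (Nat.chineseRemainder hpM r c).2.1, (Nat.chineseRemainder hpM r c).2.2⟩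
    choose rc hrc1 hrc2 using hex
    have hkey : ∀ c ∈ Om p, |((J.filter (fun n => n ≡ rc c [MOD M * p] ∧ ∀ q ∈ T, n % q ∈ Om q)).card : ℝ) -
        (m0 * w p) * ∏ q ∈ T, ((Om q).card * w q)| ≤ (∏ q ∈ T, ((Om q).card : ℝ)) * E := by
      intro c hc
      apply ih hT' (M * p) (rc c) (m0 * w p) (Nat.mul_pos hM hpp.pos)
      · intro q hq hqd
        rcases (hT' q hq).1.dvd_mul.1 hqd with h1 | h1
        · exact hcop q (mem_insert_of_mem hq) h1
        · have h2 := (Nat.prime_dvd_prime_iff_eq (hT' q hq).1 hpp).1 h1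
          exact hp (h2 ▸ hq)
      · intro s hs1 hs2
        have h1 : s ≡ r [MOD M] := (hs1.of_mul_right p).trans (hrc1 c)
        have h2 : s ≡ c [MOD p] := (Nat.ModEq.of_mul_left M hs1).trans (hrc2 c)
        have h3 := h s h1 (by
          intro q hq
          rcases mem_insert.1 hq with h4 | h4
          · rw [h4]
            have h5 : s % p = c := by
              rw [h2, Nat.mod_eq_of_lt (hOp c hc)]
            rw [h5]
            exact hc
          · exact hs2 q h4)
        rw [prod_insert hp, prod_insert hp, ← mul_assoc, ← mul_assoc] at h3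
        exact h3
    have hdec : ((J.filter (fun n => n ≡ r [MOD M] ∧ ∀ q ∈ insert p T, n % q ∈ Om q)).card : ℝ) =
        ∑ c ∈ Om p, ((J.filter (fun n => n ≡ rc c [MOD M * p] ∧ ∀ q ∈ T, n % q ∈ Om q)).card : ℝ) := by
      have h1 : J.filter (fun n => n ≡ r [MOD M] ∧ ∀ q ∈ insert p T, n % q ∈ Om q) =
          (Om p).biUnion (fun c => J.filter (fun n => n ≡ rc c [MOD M * p] ∧ ∀ q ∈ T, n % q ∈ Om q)) := by
        ext n
        rw [mem_filter, mem_biUnion]
        constructor
        · rintro ⟨hn, hnr, hnq⟩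
          refine ⟨n % p, hnq p (mem_insert_self p T), ?_⟩
          rw [mem_filter]
          refine ⟨hn, ?_, fun q hq => hnq q (mem_insert_of_mem hq)⟩
          apply (Nat.modEq_and_modEq_iff_modEq_mul hpM).1
          exact ⟨hnr.trans (hrc1 _).symm, (Nat.mod_modEq n p).symm.trans (hrc2 _).symm⟩
        · rintro ⟨c, hc, hn⟩
          rw [mem_filter] at hn
          obtain ⟨hn, hnr, hnq⟩ := hn
          obtain ⟨h2, h3⟩ := (Nat.modEq_and_modEq_iff_modEq_mul hpM).2 hnr
          refine ⟨hn, h2.trans (hrc1 c), ?_⟩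
          intro q hq
          rcases mem_insert.1 hq with h4 | h4
          · rw [h4]
            have h5 : n % p = c := by
              have h6 : n ≡ c [MOD p] := h3.trans (hrc2 c)
              rw [h6, Nat.mod_eq_of_lt (hOp c hc)]
            rw [h5]
            exact hc
          · exact hnq q h4
      rw [h1, card_biUnion]
      · push_cast
        rfl
      · intro c hc c' hc' hne
        rw [Function.onFun, disjoint_left]
        intro n hn hn'
        rw [mem_filter] at hn hn'
        apply hne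
        have h2 : n ≡ c [MOD p] := (Nat.ModEq.of_mul_left M hn.2.1).trans (hrc2 c)
        have h3 : n ≡ c' [MOD p] := (Nat.ModEq.of_mul_left M hn'.2.1).trans (hrc2 c')
        have h4 : c ≡ c' [MOD p] := h2.symm.trans h3
        have h5 : c % p = c' % p := h4
        rwa [Nat.mod_eq_of_lt (hOp c hc), Nat.mod_eq_of_lt (hOp c' hc')] at h5
    rw [hdec, prod_insert hp, prod_insert hp]
    have e : ∑ c ∈ Om p, ((J.filter (fun n => n ≡ rc c [MOD M * p] ∧ ∀ q ∈ T, n % q ∈ Om q)).card : ℝ) -
        m0 * (((Om p).card : ℝ) * w p * ∏ x ∈ T, ((Om x).card * w x)) =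
        ∑ c ∈ Om p, (((J.filter (fun n => n ≡ rc c [MOD M * p] ∧ ∀ q ∈ T, n % q ∈ Om q)).card : ℝ) -
          (m0 * w p) * ∏ q ∈ T, ((Om q).card * w q)) := by
      rw [sum_sub_distrib, sum_const, nsmul_eq_mul]
      ring
    rw [e]
    refine (abs_sum_le_sum_abs _ _).trans ?_
    refine (sum_le_sum hkey).trans (le_of_eq ?_)
    rw [sum_const, nsmul_eq_mul]
    ring

end Pool.Agent.Zk41.P5
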