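import Pool.Agent.Zk41.P5.A

/-!
Zk41/P5 (helper41): Bombieri-Vinogradov for the prime values of a linear form, in several classes.
-/

set_option autoImplicit false

open Finset H343E Filter

namespace Pool.Agent.Zk41.P5

open Pool.Agent.TH423.SH.PSUa (ev)

/-- the `n` in `(H, 2 H]` for which `a n + b` is prime -/
def JL (a : ℕ) (b : ℤ) (H : ℕ) : Finset ℕ := (Ioc H (H + H)).filter (fun n : ℕ => ((a : ℤ) * n + b).natAbs.Prime)

/-- the density of a class -/
noncomputable def wL (a p : ℕ) : ℝ := if p ∣ a then 1 / (p : ℝ) else 1 / ((p : ℝ) - 1)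

lemma tot2 (a : ℕ) (T : Finset ℕ) : (∀ p ∈ T, p.Prime) →
    1 / (Nat.totient (a * ∏ p ∈ T, p) : ℝ) = 1 / (Nat.totient a : ℝ) * ∏ p ∈ T, wL a p := by
  classical
  induction T using Finset.induction_on with
  | empty => intro _; simp
  | insert p T hp ih =>
    intro h
    have ih' := ih (fun q hq => h q (mem_insert_of_mem hq))
    have hpp := h p (mem_insert_self p T)
    rw [prod_insert hp, prod_insert hp, show a * (p * ∏ q ∈ T, q) = p * (a * ∏ q ∈ T, q) by ring]
    have hpT : ¬ p ∣ ∏ q ∈ T, q := by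
      intro hd
      obtain ⟨q, hq, hqd⟩ := (hpp.prime.dvd_finsetProd_iff _).1 hd
      have := (Nat.prime_dvd_prime_iff_eq hpp (h q (mem_insert_of_mem hq))).1 hqd
      exact hp (this ▸ hq)
    unfold wL
    split_ifs with hpa
    · have h1 : p ∣ a * ∏ q ∈ T, q := hpa.mul_right _
      rw [Nat.totient_mul_of_prime_of_dvd hpp h1]
      push_cast
      unfold wL at ih'
      rw [one_div, mul_inv, ← one_div, ← one_div, ih']
      ring
    · have h1 : ¬ p ∣ a * ∏ q ∈ T, q := by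
        intro hd
        rcases hpp.dvd_mul.1 hd with h2 | h2
        · exact hpa h2
        · exact hpT h2
      rw [Nat.totient_mul_of_prime_of_not_dvd hpp h1]
      have h2 : ((p - 1 : ℕ) : ℝ) = (p : ℝ) - 1 := by
        rw [Nat.cast_sub hpp.one_le]; simp
      push_cast
      rw [h2]
      unfold wL at ih'
      rw [one_div, mul_inv, ← one_div, ← one_div, ih']
      ring

/-- the prime values of `a n + b` in a class -/
lemma jcnt (a : ℕ) (ha : 0 < a) (b : ℤ) (H d s x0 x1 : ℕ) (hd : 0 < d) (h0 : (x0 : ℤ) = a * H + b)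
    (h1 : (x1 : ℤ) = a * (H + H : ℕ) + b) :
    ∃ r : ℕ, r < a * d ∧ (r : ℤ) ≡ a * s + b [ZMOD (a * d : ℕ)] ∧
      (((JL a b H).filter (fun n => n ≡ s [MOD d])).card : ℝ) = piAP x1 (a * d) r - piAP x0 (a * d) r := by
  classical
  have had : 0 < a * d := Nat.mul_pos ha hd
  have hadZ : ((a * d : ℕ) : ℤ) ≠ 0 := by exact_mod_cast had.ne'
  have haZ : (0 : ℤ) < a := by exact_mod_cast ha
  refine ⟨(((a : ℤ) * s + b) % ((a * d : ℕ) : ℤ)).toNat, ?_, ?_, ?_⟩
  · have h2 := Int.emod_lt_of_pos ((a : ℤ) * s + b) (show (0 : ℤ) < ((a * d : ℕ) : ℤ) by exact_mod_cast had)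
    have h3 := Int.emod_nonneg ((a : ℤ) * s + b) hadZ
    omega
  · rw [Int.toNat_of_nonneg (Int.emod_nonneg _ hadZ)]
    exact Int.mod_modEq _ _
  · obtain ⟨r, hr⟩ : ∃ r : ℕ, r = (((a : ℤ) * s + b) % ((a * d : ℕ) : ℤ)).toNat := ⟨_, rfl⟩
    rw [← hr]
    have hrZ : (r : ℤ) ≡ a * s + b [ZMOD (a * d : ℕ)] := by
      rw [hr, Int.toNat_of_nonneg (Int.emod_nonneg _ hadZ)]
      exact Int.mod_modEq _ _
    have hx : x0 ≤ x1 := by
      have : (x0 : ℤ) ≤ x1 := by
        rw [h0, h1]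
        push_cast
        nlinarith [mul_nonneg haZ.le (Int.natCast_nonneg H)]
      exact_mod_cast this
    unfold piAP
    rw [← Pool.Agent.TH423.SH.PSUa.cnt (fun p => p.Prime ∧ p ≡ r [MOD a * d]) x0 x1 hx]
    congr 1
    apply card_bij (fun (n : ℕ) _ => (((a : ℤ) * (n : ℤ) + b).natAbs))
    · intro n hn
      rw [mem_filter] at hn
      unfold JL at hn
      rw [mem_filter, mem_Ioc] at hn
      obtain ⟨⟨⟨hn1, hn2⟩, hnp⟩, hns⟩ := hn
      have hpos : (x0 : ℤ) < (a : ℤ) * n + b := by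
        rw [h0]
        have : (H : ℤ) < n := by exact_mod_cast hn1
        nlinarith
      have hle : (a : ℤ) * n + b ≤ x1 := by
        rw [h1]
        have : (n : ℤ) ≤ (H + H : ℕ) := by exact_mod_cast hn2
        nlinarith
      have hnat : ((((a : ℤ) * n + b).natAbs : ℕ) : ℤ) = (a : ℤ) * n + b := by
        rw [Int.natCast_natAbs, abs_of_nonneg (by omega)]
      rw [mem_filter, mem_Ioc]
      refine ⟨⟨by omega, by omega⟩, hnp, ?_⟩
      apply (Int.natCast_modEq_iff).1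
      rw [hnat]
      refine Int.ModEq.trans ?_ hrZ.symm
      apply Int.ModEq.add_right
      push_cast
      exact Int.ModEq.mul_left' ((Int.natCast_modEq_iff).2 hns)
    · intro n hn m hm heq
      rw [mem_filter] at hn hm
      unfold JL at hn hm
      rw [mem_filter, mem_Ioc] at hn hm
      have e1 : (x0 : ℤ) < (a : ℤ) * n + b := by
        rw [h0]
        have : (H : ℤ) < n := by exact_mod_cast hn.1.1.1
        nlinarith
      have e2 : (x0 : ℤ) < (a : ℤ) * m + b := by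
        rw [h0]
        have : (H : ℤ) < m := by exact_mod_cast hm.1.1.1
        nlinarith
      have e3 : (a : ℤ) * n = a * m := by omega
      have e4 := mul_left_cancel₀ haZ.ne' e3
      exact_mod_cast e4
    · intro q hq
      rw [mem_filter, mem_Ioc] at hq
      obtain ⟨⟨hq0, hq1⟩, hqp, hqr⟩ := hq
      have h2 : (q : ℤ) ≡ a * s + b [ZMOD (a * d : ℕ)] := ((Int.natCast_modEq_iff).2 hqr).trans hrZ
      have h3 : ((a * d : ℕ) : ℤ) ∣ (q : ℤ) - (a * s + b) := h2.symm.dvd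
      obtain ⟨t, ht⟩ := h3
      push_cast at ht
      have hn : ((s : ℤ) + d * t) * a + b = q := by linarith
      have hnpos : 0 ≤ (s : ℤ) + d * t := by
        by_contra hneg
        push Not at hneg
        have h4 : (q : ℤ) ≤ b := by nlinarith
        have h5 : (x0 : ℤ) < q := by exact_mod_cast hq0
        have h6 : b ≤ x0 := by
          rw [h0]
          nlinarith [mul_nonneg haZ.le (Int.natCast_nonneg H)]
        omega
      obtain ⟨n, hnn⟩ := Int.eq_ofNat_of_zero_le hnpos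
      rw [hnn] at hn
      have hH1 : (H : ℤ) < n := by
        have h5 : (x0 : ℤ) < q := by exact_mod_cast hq0
        rw [h0, ← hn] at h5
        nlinarith
      have hH2 : (n : ℤ) ≤ (H + H : ℕ) := by
        have h5 : (q : ℤ) ≤ x1 := by exact_mod_cast hq1
        rw [h1, ← hn] at h5
        nlinarith
      refine ⟨n, ?_, ?_⟩
      · rw [mem_filter]
        unfold JL
        rw [mem_filter, mem_Ioc]
        have e1 : (a : ℤ) * n + b = q := by linarith
        refine ⟨⟨⟨by exact_mod_cast hH1, by exact_mod_cast hH2⟩, ?_⟩, ?_⟩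
        · rw [e1]; simpa using hqp
        · apply (Int.natCast_modEq_iff).1
          rw [← hnn]
          apply (Int.modEq_iff_dvd).2
          exact ⟨-t, by ring⟩
      · have e1 : (a : ℤ) * n + b = q := by linarith
        rw [e1]
        simp

open Classical in
/-- Bombieri-Vinogradov for the prime values of a linear form, in several classes modulo several primes -/
theorem bvcls (K : ℝ) (hK : 1 ≤ K) (A U : ℕ) (τ : ℝ) (hτ0 : 0 < τ) (hτ : τ < 1 / 2) : ∃ H₀ : ℕ, ∀ H : ℕ, H₀ ≤ H →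
    ∀ (a : ℕ) (b : ℤ), 1 ≤ a → (a : ℝ) ≤ Real.log H ^ A → ((|b| : ℤ) : ℝ) ≤ Real.log H ^ A → IsCoprime (a : ℤ) b →
    ∀ x0 x1 : ℕ, (x0 : ℤ) = a * H + b → (x1 : ℤ) = a * (H + H : ℕ) + b →
    ∃ Er : ℕ → ℝ, (∀ q, 0 ≤ Er q) ∧ (∑ d ∈ Icc 1 ⌊(H : ℝ) ^ τ⌋₊, K ^ d.primeFactors.card * Er d ≤ H / Real.log H ^ U) ∧
      ∀ T : Finset ℕ, (∀ p ∈ T, p.Prime) → ((∏ p ∈ T, p : ℕ) : ℝ) ≤ (H : ℝ) ^ τ → ∀ Om : ℕ → Finset ℕ,
        (∀ p ∈ T, ∀ c ∈ Om p, c < p ∧ ¬ (p : ℤ) ∣ a * c + b) →
        |(((JL a b H).filter (fun n => ∀ p ∈ T, n % p ∈ Om p)).card : ℝ) -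
          (pi1 x1 - pi1 x0) / Nat.totient a * ∏ p ∈ T, ((Om p).card * wL a p)| ≤
          (∏ p ∈ T, ((Om p).card : ℝ)) * Er (∏ p ∈ T, p) := by
  obtain ⟨B, y0, hB⟩ := Pool.Agent.H96R2.EQP.weighted K hK (U + A + 1)
  have hlog : Tendsto (fun H : ℕ => Real.log H) atTop atTop := Real.tendsto_log_atTop.comp tendsto_natCast_atTop_atTop
  obtain ⟨X1, hX1⟩ := ev (2 ^ (3 * B + 4)) (B + 2 * A) (1 - 2 * τ) (by linarith)
  obtain ⟨X2, hX2⟩ := ev 2 A 1 one_pos
  obtain ⟨X3, hX3⟩ := eventually_atTop.1 (hlog.eventually_ge_atTop ((2 : ℝ) ^ (U + A + 8)))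
  refine ⟨max (max (2 * y0 + 4) X1) (max X2 X3), fun H hH a b ha haA hbA hab x0 x1 h0 h1 => ?_⟩
  simp only [max_le_iff] at hH
  obtain ⟨⟨g1, g2⟩, g3, g4⟩ := hH
  have hL := hX3 H g4
  have hE1 := hX1 H g2
  have hE2 := hX2 H g3
  rw [Real.rpow_one] at hE2
  set L := Real.log H with hLd
  have h2U : (1 : ℝ) ≤ 2 ^ (U + A + 8) := one_le_pow₀ (by norm_num)
  have hL1 : 1 ≤ L := h2U.trans hL
  have hL0 : 0 < L := by linarith
  have hHr : (4 : ℝ) ≤ H := by exact_mod_cast (by omega : 4 ≤ H)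
  have hH0 : (0 : ℝ) < H := by linarith
  have haR : (1 : ℝ) ≤ a := by exact_mod_cast ha
  have haZ : (0 : ℤ) < a := by exact_mod_cast (by omega : 0 < a)
  have hbR : -(((|b| : ℤ) : ℝ)) ≤ b ∧ (b : ℝ) ≤ ((|b| : ℤ) : ℝ) := by
    constructor
    · have := neg_abs_le b; exact_mod_cast this
    · have := le_abs_self b; exact_mod_cast this
  have h0r : (x0 : ℝ) = a * H + b := by exact_mod_cast h0
  have h1r : (x1 : ℝ) = a * (H + H) + b := by exact_mod_cast h1
  have hx0l : (H : ℝ) / 2 ≤ x0 := by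
    rw [h0r]
    nlinarith
  have hx1l : (H : ℝ) / 2 ≤ x1 := by
    rw [h1r]
    nlinarith
  have hx0u : (x0 : ℝ) ≤ 4 * L ^ A * H := by
    rw [h0r]
    have h2 : (b : ℝ) ≤ L ^ A * 1 := by linarith [hbR.2]
    have h3 : (a : ℝ) * H ≤ L ^ A * H := mul_le_mul_of_nonneg_right haA hH0.le
    have h4 : L ^ A * 1 ≤ L ^ A * H := mul_le_mul_of_nonneg_left (by linarith) (by positivity)
    nlinarith
  have hx1u : (x1 : ℝ) ≤ 4 * L ^ A * H := by
    rw [h1r]
    have h2 : (b : ℝ) ≤ L ^ A * 1 := by linarith [hbR.2]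
    have h3 : (a : ℝ) * H ≤ L ^ A * H := mul_le_mul_of_nonneg_right haA hH0.le
    have h4 : L ^ A * 1 ≤ L ^ A * H := mul_le_mul_of_nonneg_left (by linarith) (by positivity)
    nlinarith
  -- both ends
  have hend : ∀ x : ℕ, (H : ℝ) / 2 ≤ x → (x : ℝ) ≤ 4 * L ^ A * H → ∃ M : ℕ → ℝ, (∀ q, 0 ≤ M q) ∧
      (∀ d r : ℕ, 1 ≤ d → (d : ℝ) ≤ (H : ℝ) ^ τ → r.Coprime (a * d) →
        |piAP x (a * d) r - pi1 x / (Nat.totient (a * d) : ℝ)| ≤ M d) ∧
      ∑ d ∈ Icc 1 ⌊(H : ℝ) ^ τ⌋₊, K ^ d.primeFactors.card * M d ≤ H / L ^ U / 2 := by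
    intro x hxl hxu
    have hxy : y0 ≤ x := by
      have : ((y0 : ℕ) : ℝ) ≤ x := by
        have h2 : (2 * y0 : ℝ) ≤ H := by exact_mod_cast (by omega : 2 * y0 ≤ H)
        linarith
      exact_mod_cast this
    obtain ⟨M, hM0, hM1, hM2⟩ := hB x hxy
    have hx0 : (0 : ℝ) < x := by linarith
    have hlx : L / 2 ≤ Real.log x := by
      have h2 : Real.log ((H : ℝ) / 2) ≤ Real.log x := Real.log_le_log (by linarith) hxl
      rw [Real.log_div (by linarith) (by norm_num)] at h2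
      have h3 : Real.log 2 < 1 := by
        have := Real.log_two_lt_d9
        linarith
      have h4 : (2 : ℝ) ≤ 2 ^ (U + A + 8) := by
        calc (2 : ℝ) = 2 ^ 1 := by norm_num
          _ ≤ _ := pow_le_pow_right₀ (by norm_num) (by omega)
      linarith
    have hlxu : Real.log x ≤ 2 ^ 3 * L := by
      have h2 : Real.log x ≤ Real.log ((H : ℝ) ^ 8) := by
        apply Real.log_le_log hx0
        have h3 : 2 * L ^ A ≤ H := by linarith
        have h5 : (1 : ℝ) ≤ H := by linarith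
        calc (x : ℝ) ≤ 4 * L ^ A * H := hxu
          _ = 2 * (2 * L ^ A) * H := by ring
          _ ≤ H * H * H := by
              apply mul_le_mul_of_nonneg_right _ hH0.le
              exact mul_le_mul (by linarith) h3 (by positivity) (by positivity)
          _ = (H : ℝ) ^ 3 := by ring
          _ ≤ (H : ℝ) ^ 8 := pow_le_pow_right₀ h5 (by norm_num)
      rw [Real.log_pow] at h2
      norm_num at h2 ⊢
      exact h2
    have hadx : ∀ d : ℕ, 1 ≤ d → (d : ℝ) ≤ (H : ℝ) ^ τ → Real.log x ^ B * ((a * d : ℕ) : ℝ) ^ 2 < x := by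
      intro d hd hdH
      push_cast
      have h2 : (d : ℝ) ^ 2 ≤ (H : ℝ) ^ (2 * τ) := by
        have := pow_le_pow_left₀ (by positivity) hdH 2
        rwa [← Real.rpow_natCast ((H : ℝ) ^ τ) 2, ← Real.rpow_mul hH0.le, show τ * ((2 : ℕ) : ℝ) = 2 * τ by push_cast; ring] at this
      have h3 : Real.log x ^ B ≤ (2 ^ 3 * L) ^ B := pow_le_pow_left₀ (by linarith) hlxu B
      have h4 : (a : ℝ) ^ 2 ≤ L ^ (2 * A) := by
        rw [mul_comm 2 A, pow_mul]
        exact pow_le_pow_left₀ (by linarith) haA 2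
      have h5 : Real.log x ^ B * ((a : ℝ) * d) ^ 2 ≤ (2 ^ 3 * L) ^ B * (L ^ (2 * A) * (H : ℝ) ^ (2 * τ)) := by
        rw [mul_pow (a : ℝ) (d : ℝ) 2]
        apply mul_le_mul h3 (mul_le_mul h4 h2 (by positivity) (by positivity)) (by positivity) (by positivity)
      have h6 : 4 * ((2 ^ 3 * L) ^ B * (L ^ (2 * A) * (H : ℝ) ^ (2 * τ))) ≤ H := by
        have h7 : (2 ^ 3 * L) ^ B = 2 ^ (3 * B) * L ^ B := by rw [mul_pow, ← pow_mul]
        have h8 : (2 : ℝ) ^ (3 * B + 4) = 16 * 2 ^ (3 * B) := by rw [pow_add]; ring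
        rw [h7]
        calc 4 * (2 ^ (3 * B) * L ^ B * (L ^ (2 * A) * (H : ℝ) ^ (2 * τ))) ≤
            16 * (2 ^ (3 * B) * L ^ B * (L ^ (2 * A) * (H : ℝ) ^ (2 * τ))) := by
              apply mul_le_mul_of_nonneg_right (by norm_num) (by positivity)
          _ = (2 ^ (3 * B + 4) * L ^ (B + 2 * A)) * (H : ℝ) ^ (2 * τ) := by rw [h8, pow_add L]; ring
          _ ≤ (H : ℝ) ^ (1 - 2 * τ) * (H : ℝ) ^ (2 * τ) := mul_le_mul_of_nonneg_right hE1 (by positivity)
          _ = H := by rw [← Real.rpow_add hH0, show 1 - 2 * τ + 2 * τ = 1 by ring, Real.rpow_one]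
      linarith
    have hadx' : ∀ d : ℕ, 1 ≤ d → (d : ℝ) ≤ (H : ℝ) ^ τ → a * d ≤ x := by
      intro d hd hdH
      have h2 := hadx d hd hdH
      have h3 : (1 : ℝ) ≤ Real.log x ^ B := one_le_pow₀ (by
        have h4 : (2 : ℝ) ≤ 2 ^ (U + A + 8) := by
          calc (2 : ℝ) = 2 ^ 1 := by norm_num
            _ ≤ _ := pow_le_pow_right₀ (by norm_num) (by omega)
        linarith)
      have h4 : (1 : ℝ) ≤ ((a * d : ℕ) : ℝ) := by
        exact_mod_cast Nat.mul_pos (by omega : 0 < a) (by omega : 0 < d)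
      have h5 : ((a * d : ℕ) : ℝ) ≤ x := by nlinarith [sq_nonneg (((a * d : ℕ) : ℝ))]
      exact_mod_cast h5
    refine ⟨fun d => M (a * d), fun d => hM0 _, ?_, ?_⟩
    · intro d r hd hdH hr
      exact hM1 (a * d) r (Nat.mul_pos (by omega) (by omega)) hr (hadx d hd hdH) (hadx' d hd hdH)
    · have hinj : Set.InjOn (fun d : ℕ => a * d) (Icc 1 ⌊(H : ℝ) ^ τ⌋₊ : Set ℕ) := by
        intro d _ d' _ h
        exact Nat.eq_of_mul_eq_mul_left (by omega) h
      have h2 : ∑ d ∈ Icc 1 ⌊(H : ℝ) ^ τ⌋₊, K ^ d.primeFactors.card * M (a * d) ≤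
          ∑ q ∈ Icc 1 x, K ^ q.primeFactors.card * M q := by
        calc ∑ d ∈ Icc 1 ⌊(H : ℝ) ^ τ⌋₊, K ^ d.primeFactors.card * M (a * d) ≤
            ∑ d ∈ Icc 1 ⌊(H : ℝ) ^ τ⌋₊, K ^ (a * d).primeFactors.card * M (a * d) := by
              apply sum_le_sum
              intro d hd
              rw [mem_Icc] at hd
              apply mul_le_mul_of_nonneg_right _ (hM0 _)
              apply pow_le_pow_right₀ hK
              apply card_le_card
              apply Nat.primeFactors_mono (Dvd.intro_left a rfl)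
              exact Nat.mul_ne_zero (by omega) (by omega)
          _ = ∑ q ∈ (Icc 1 ⌊(H : ℝ) ^ τ⌋₊).image (fun d => a * d), K ^ q.primeFactors.card * M q := by
              rw [sum_image (by intro d hd d' hd' h; exact Nat.eq_of_mul_eq_mul_left (by omega) h)]
          _ ≤ _ := by
              apply sum_le_sum_of_subset_of_nonneg
              · intro q hq
                rw [mem_image] at hq
                obtain ⟨d, hd, rfl⟩ := hq
                rw [mem_Icc] at hd ⊢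
                refine ⟨Nat.mul_pos (by omega) (by omega), hadx' d hd.1 ?_⟩
                exact (Nat.cast_le.2 hd.2).trans (Nat.floor_le (by positivity))
              · intro q _ _
                exact mul_nonneg (by positivity) (hM0 _)
      refine (h2.trans hM2).trans ?_
      have h3 : (L / 2) ^ (U + A + 1) ≤ Real.log x ^ (U + A + 1) := pow_le_pow_left₀ (by linarith) hlx _
      calc (x : ℝ) / Real.log x ^ (U + A + 1) ≤ (4 * L ^ A * H) / (L / 2) ^ (U + A + 1) := by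
            apply div_le_div₀ (by positivity) hxu (by positivity) h3
        _ = (H / L ^ U) * (4 * 2 ^ (U + A + 1) / L) := by
            rw [div_pow, pow_succ L, pow_add L U A]
            field_simp
        _ ≤ (H / L ^ U) * (1 / 2) := by
            apply mul_le_mul_of_nonneg_left _ (by positivity)
            rw [div_le_div_iff₀ hL0 (by norm_num)]
            have h4 : (4 * 2 ^ (U + A + 1) * 2 : ℝ) = 2 ^ (U + A + 4) := by
              rw [show U + A + 4 = (U + A + 1) + 3 by ring, pow_add 2 (U + A + 1) 3]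
              ring
            rw [h4, one_mul]
            exact (pow_le_pow_right₀ (by norm_num) (by omega)).trans hL
        _ = _ := by ring
  obtain ⟨M0, m00, m01, m02⟩ := hend x0 hx0l hx0u
  obtain ⟨M1, m10, m11, m12⟩ := hend x1 hx1l hx1u
  refine ⟨fun d => M1 d + M0 d, fun d => add_nonneg (m10 d) (m00 d), ?_, ?_⟩
  · simp only [mul_add, sum_add_distrib]
    linarith
  · intro T hT hTH Om hOm
    have hd1 : 1 ≤ ∏ p ∈ T, p := Nat.one_le_iff_ne_zero.2 (prod_ne_zero_iff.2 (fun p hp => (hT p hp).ne_zero))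
    have key := cls (JL a b H) (wL a) Om (M1 (∏ p ∈ T, p) + M0 (∏ p ∈ T, p)) T
      (fun p hp => ⟨hT p hp, fun c hc => (hOm p hp c hc).1⟩) 1 0 ((pi1 x1 - pi1 x0) / Nat.totient a) one_pos
      (fun p hp hp1 => (hT p hp).one_lt.ne' (Nat.dvd_one.1 hp1)) ?_
    · simpa [Nat.modEq_one] using key
    · intro s _ hs
      rw [one_mul]
      obtain ⟨r, hr1, hr2, hr3⟩ := jcnt a (by omega) b H (∏ p ∈ T, p) s x0 x1 hd1 h0 h1
      rw [hr3]
      have hrc : r.Coprime (a * ∏ p ∈ T, p) := by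
        have c1 : IsCoprime ((a : ℤ) * s + b) (a : ℤ) := by
          rw [add_comm]
          exact IsCoprime.add_mul_left_left hab.symm _
        have c2 : IsCoprime ((a : ℤ) * s + b) (∏ p ∈ T, (p : ℤ)) := by
          apply IsCoprime.prod_right
          intro p hp
          have hpp := hT p hp
          have h2 := (hOm p hp _ (hs p hp)).2
          have h3 : ¬ (p : ℤ) ∣ (a : ℤ) * s + b := by
            intro h4
            apply h2
            have h5 : (p : ℤ) ∣ (s : ℤ) - ((s % p : ℕ) : ℤ) := by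
              push_cast
              exact Int.dvd_self_sub_emod
            have h6 : (a : ℤ) * ((s % p : ℕ) : ℤ) + b = (a : ℤ) * s + b - a * ((s : ℤ) - ((s % p : ℕ) : ℤ)) := by ring
            rw [h6]
            exact h4.sub (h5.mul_left _)
          rw [isCoprime_comm]
          exact (Nat.prime_iff_prime_int.1 hpp).coprime_iff_not_dvd.2 h3
        have c3 : IsCoprime ((a : ℤ) * s + b) ((a * ∏ p ∈ T, p : ℕ) : ℤ) := by
          push_cast
          exact c1.mul_right c2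
        obtain ⟨t, ht⟩ := hr2.dvd
        have c4 : IsCoprime (r : ℤ) ((a * ∏ p ∈ T, p : ℕ) : ℤ) := by
          have h2 : (r : ℤ) = ((a : ℤ) * s + b) + ((a * ∏ p ∈ T, p : ℕ) : ℤ) * (-t) := by linarith
          rw [h2]
          exact IsCoprime.add_mul_left_left c3 _
        exact Nat.isCoprime_iff_coprime.1 c4
      have e1 := m11 (∏ p ∈ T, p) r hd1 hTH hrc
      have e0 := m01 (∏ p ∈ T, p) r hd1 hTH hrc
      have e2 := tot2 a T hT
      have e3 : (pi1 x1 - pi1 x0) / (Nat.totient a : ℝ) * ∏ p ∈ T, wL a p =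
          pi1 x1 / (Nat.totient (a * ∏ p ∈ T, p) : ℝ) - pi1 x0 / (Nat.totient (a * ∏ p ∈ T, p) : ℝ) := by
        rw [← sub_div, div_eq_mul_one_div _ ((Nat.totient (a * ∏ p ∈ T, p) : ℕ) : ℝ), e2]
        ring
      rw [e3]
      have e4 : piAP x1 (a * ∏ p ∈ T, p) r - piAP x0 (a * ∏ p ∈ T, p) r -
          (pi1 x1 / (Nat.totient (a * ∏ p ∈ T, p) : ℝ) - pi1 x0 / (Nat.totient (a * ∏ p ∈ T, p) : ℝ)) =
          (piAP x1 (a * ∏ p ∈ T, p) r - pi1 x1 / (Nat.totient (a * ∏ p ∈ T, p) : ℝ)) -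
            (piAP x0 (a * ∏ p ∈ T, p) r - pi1 x0 / (Nat.totient (a * ∏ p ∈ T, p) : ℝ)) := by ring
      rw [e4]
      exact (abs_sub _ _).trans (add_le_add e1 e0)

end Pool.Agent.Zk41.P5
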