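import Pool.Agent.Zk41.P5.B
import Pool.Agent.Zk41.PY.E
import Pool.Agent.Zk41.LS.G
import Pool.Agent.Y882.KW.Core4
import Pool.Agent.K3h31.LP.Sieve

/-!
Zk41/P5 (helper41): roots and sieve products for a linear form times a polynomial.
-/

set_option autoImplicit false

open Finset Filter Polynomial H343E

namespace Pool.Agent.Zk41.P5

open Pool.Agent.TH423.SH (PS PIj)
open Pool.Agent.Y677.RSZ (rt V rt_le fac_nonneg fac_le ev_log)
open Pool.Agent.K3h89.SZ (SysP)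
open Pool.Agent.Zk41.PY (fn AdmP dvd_iff sysP_poly)
open Pool.Agent.Y882 (PZ tt_lt)
open Pool.Agent.W23.DC (pr tt Mer)

/-- the polynomial `a X + b` -/
noncomputable def L1 (a : ℕ) (b : ℤ) : ℤ[X] := Polynomial.C (a : ℤ) * X + Polynomial.C b

lemma fnL (a : ℕ) (b : ℤ) (Q : ℤ[X]) (x : ℤ) : fn (L1 a b * Q) x = ((a : ℤ) * x + b) * fn Q x := by
  unfold fn L1
  rw [eval_mul, eval_add, eval_mul, eval_C, eval_X, eval_C]

open Classical in
/-- the roots of `Q` at which `a x + b` is not divisible by `p` -/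
noncomputable def OmL (a : ℕ) (b : ℤ) (Q : ℤ[X]) (p : ℕ) : Finset ℕ :=
  (range p).filter (fun r : ℕ => ¬ (p : ℤ) ∣ (a : ℤ) * r + b ∧ (p : ℤ) ∣ fn Q (r : ℤ))

lemma mem_OmL (a : ℕ) (b : ℤ) (Q : ℤ[X]) (p r : ℕ) :
    r ∈ OmL a b Q p ↔ r < p ∧ ¬ (p : ℤ) ∣ (a : ℤ) * r + b ∧ (p : ℤ) ∣ fn Q (r : ℤ) := by
  unfold OmL
  rw [mem_filter, mem_range]

lemma cop_adm (a : ℕ) (b : ℤ) (Q : ℤ[X]) (h : AdmP (L1 a b * Q)) : IsCoprime (a : ℤ) b := by
  rw [Int.isCoprime_iff_gcd_eq_one]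
  by_contra hcon
  obtain ⟨p, hp, hpd⟩ := Nat.exists_prime_and_dvd hcon
  obtain ⟨x, hx⟩ := h p hp
  apply hx
  have h1 : (p : ℤ) ∣ a := (Int.natCast_dvd_natCast.2 hpd).trans (Int.gcd_dvd_left _ _)
  have h2 : (p : ℤ) ∣ b := (Int.natCast_dvd_natCast.2 hpd).trans (Int.gcd_dvd_right _ _)
  have h3 := fnL a b Q x
  unfold fn at h3
  rw [h3]
  exact ((h1.mul_right x).add h2).mul_right _

lemma ndvd_of_dvd {a : ℕ} {b : ℤ} (hab : IsCoprime (a : ℤ) b) {p : ℕ} (hp : p.Prime) (hpa : p ∣ a) (r : ℤ) :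
    ¬ (p : ℤ) ∣ (a : ℤ) * r + b := by
  intro h
  have h1 : (p : ℤ) ∣ a := Int.natCast_dvd_natCast.2 hpa
  have h2 : (p : ℤ) ∣ b := by
    have h3 : b = ((a : ℤ) * r + b) - a * r := by ring
    rw [h3]
    exact h.sub (h1.mul_right r)
  have h4 := hab.isUnit_of_dvd' h1 h2
  exact (Nat.prime_iff_prime_int.1 hp).not_isUnit h4

lemma rt_dvd {a : ℕ} {b : ℤ} (hab : IsCoprime (a : ℤ) b) (Q : ℤ[X]) {p : ℕ} (hp : p.Prime) (hpa : p ∣ a) :
    rt (fn (L1 a b * Q)) p = (OmL a b Q p).card := by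
  classical
  unfold rt OmL
  congr 1
  apply filter_congr
  intro r _
  rw [fnL]
  have h1 := ndvd_of_dvd hab hp hpa r
  constructor
  · intro h
    exact ⟨h1, ((Nat.prime_iff_prime_int.1 hp).dvd_or_dvd h).resolve_left h1⟩
  · rintro ⟨_, h⟩
    exact h.mul_left _

lemma rt_ndvd (a : ℕ) (b : ℤ) (Q : ℤ[X]) {p : ℕ} (hp : p.Prime) (hpa : ¬ p ∣ a) :
    rt (fn (L1 a b * Q)) p = (OmL a b Q p).card + 1 := by
  classical
  have hpp : Prime (p : ℤ) := Nat.prime_iff_prime_int.1 hp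
  have hp0 : (0 : ℤ) < p := by exact_mod_cast hp.pos
  have hpaZ : ¬ (p : ℤ) ∣ (a : ℤ) := fun h => hpa (Int.natCast_dvd_natCast.1 h)
  obtain ⟨u, v, huv⟩ : IsCoprime (p : ℤ) (a : ℤ) := hpp.coprime_iff_not_dvd.2 hpaZ
  obtain ⟨r0, hr0⟩ : ∃ r0 : ℕ, r0 = ((-b * v) % p).toNat := ⟨_, rfl⟩
  have hr0Z : (r0 : ℤ) = (-b * v) % p := by
    rw [hr0, Int.toNat_of_nonneg (Int.emod_nonneg _ hp0.ne')]
  have hr0p : r0 < p := by
    have h1 := Int.emod_lt_of_pos (-b * v) hp0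
    rw [← hr0Z] at h1
    exact_mod_cast h1
  have hr0d : (p : ℤ) ∣ (a : ℤ) * r0 + b := by
    have h1 : (p : ℤ) ∣ (-b * v) - (r0 : ℤ) := by
      rw [hr0Z]
      exact Int.dvd_self_sub_emod
    have h2 : (a : ℤ) * r0 + b = -(a * ((-b * v) - r0)) + b * (1 - v * a) := by ring
    rw [h2]
    apply ((h1.mul_left _).neg_right).add
    have h3 : 1 - v * a = u * p := by linarith
    rw [h3]
    exact ⟨b * u, by ring⟩
  have hn : r0 ∉ OmL a b Q p := by
    rw [mem_OmL]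
    rintro ⟨_, h, _⟩
    exact h hr0d
  rw [← card_insert_of_notMem hn]
  unfold rt
  congr 1
  ext r
  rw [mem_filter, mem_range, mem_insert, mem_OmL, fnL]
  constructor
  · rintro ⟨h1, h2⟩
    by_cases h3 : (p : ℤ) ∣ (a : ℤ) * r + b
    · left
      have h4 : (p : ℤ) ∣ (a : ℤ) * (r - r0) := by
        have h5 : (a : ℤ) * (r - r0) = ((a : ℤ) * r + b) - ((a : ℤ) * r0 + b) := by ring
        rw [h5]
        exact h3.sub hr0d
      have h6 := (hpp.dvd_or_dvd h4).resolve_left hpaZ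
      have h7 : (r : ℤ) - r0 = 0 := by
        apply Int.eq_zero_of_abs_lt_dvd h6
        rw [abs_lt]
        constructor <;> omega
      omega
    · right
      exact ⟨h1, h3, (hpp.dvd_or_dvd h2).resolve_left h3⟩
  · rintro (rfl | ⟨h1, _, h3⟩)
    · exact ⟨hr0p, hr0d.mul_right _⟩
    · exact ⟨h1, h3.mul_left _⟩

lemma wL_nonneg (a : ℕ) {p : ℕ} (hp : p.Prime) : 0 ≤ wL a p := by
  have h1 : (2 : ℝ) ≤ p := by exact_mod_cast hp.two_le
  unfold wL
  split_ifs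
  · positivity
  · apply div_nonneg zero_le_one
    linarith

lemma wL_le (a : ℕ) {p : ℕ} (hp : p.Prime) : wL a p ≤ 1 / ((p : ℝ) - 1) := by
  have h1 : (2 : ℝ) ≤ p := by exact_mod_cast hp.two_le
  unfold wL
  split_ifs
  · exact one_div_le_one_div_of_le (by linarith) (by linarith)
  · exact le_rfl

/-- the factor of the singular product -/
lemma fac_eq {a : ℕ} {b : ℤ} (hab : IsCoprime (a : ℤ) b) (Q : ℤ[X]) {p : ℕ} (hp : p.Prime) :
    1 - (rt (fn (L1 a b * Q)) p : ℝ) / p = (if p ∣ a then 1 else 1 - 1 / (p : ℝ)) * (1 - (OmL a b Q p).card * wL a p) := by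
  have hp2 : (2 : ℝ) ≤ p := by exact_mod_cast hp.two_le
  have e1 : (p : ℝ) ≠ 0 := by linarith
  have e2 : (p : ℝ) - 1 ≠ 0 := by linarith
  by_cases hpa : p ∣ a
  · rw [rt_dvd hab Q hp hpa, if_pos hpa]
    unfold wL
    rw [if_pos hpa]
    ring
  · rw [rt_ndvd a b Q hp hpa, if_neg hpa]
    unfold wL
    rw [if_neg hpa]
    push_cast
    field_simp
    ring

lemma fac_pos' {a : ℕ} {b : ℤ} (Q : ℤ[X]) (hA : AdmP (L1 a b * Q)) {p : ℕ} (hp : p.Prime) :
    0 ≤ 1 - (OmL a b Q p).card * wL a p := by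
  have hab := cop_adm a b Q hA
  have hp2 : (2 : ℝ) ≤ p := by exact_mod_cast hp.two_le
  have h1 : rt (fn (L1 a b * Q)) p < p := (sysP_poly _ _ hA le_rfl).root p hp |>.2
  by_cases hpa : p ∣ a
  · rw [rt_dvd hab Q hp hpa] at h1
    unfold wL
    rw [if_pos hpa, sub_nonneg, mul_one_div, div_le_one (by linarith)]
    exact_mod_cast h1.le
  · rw [rt_ndvd a b Q hp hpa] at h1
    unfold wL
    rw [if_neg hpa, sub_nonneg, mul_one_div, div_le_one (by linarith)]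
    have h2 : ((OmL a b Q p).card : ℝ) + 1 ≤ p := by exact_mod_cast h1.le
    linarith

/-- the product of the sieve for the primes `a n + b` -/
theorem prodV (ε₁ : ℝ) (hε : 0 < ε₁) (hε1 : ε₁ ≤ 1) : ∃ H₀ : ℕ, ∀ H : ℕ, H₀ ≤ H → ∀ (a : ℕ) (b : ℤ) (Q : ℤ[X]),
    1 ≤ a → AdmP (L1 a b * Q) →
    ε₁ / 4 * Real.log H * Nat.totient a * V (fn (L1 a b * Q)) 1 H ≤ a * ∏ p ∈ PZ H ε₁, (1 - (OmL a b Q p).card * wL a p) := by
  classical
  have hcast : Tendsto (fun H : ℕ => (H : ℝ)) atTop atTop := tendsto_natCast_atTop_atTop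
  have v1 : ∀ᶠ H : ℕ in atTop, (4 : ℝ) ≤ (H : ℝ) ^ (ε₁ / 4) :=
    ((tendsto_rpow_atTop (by linarith)).comp hcast).eventually_ge_atTop _
  obtain ⟨H₀, hH₀⟩ := eventually_atTop.1 (v1.and (eventually_ge_atTop 3))
  refine ⟨H₀, fun H hH a b Q ha hA => ?_⟩
  obtain ⟨w1, w2⟩ := hH₀ H hH
  have hab := cop_adm a b Q hA
  have hHr : (3 : ℝ) ≤ H := by exact_mod_cast w2
  have hH0 : (0 : ℝ) < H := by linarith
  have hH1 : (1 : ℝ) < H := by linarith
  have hlH : 0 < Real.log H := Real.log_pos hH1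
  obtain ⟨R, hR⟩ : ∃ R : ℕ, R = ⌊(H : ℝ) ^ (ε₁ / 2)⌋₊ := ⟨_, rfl⟩
  have hp4 : (H : ℝ) ^ (ε₁ / 2) = (H : ℝ) ^ (ε₁ / 4) * (H : ℝ) ^ (ε₁ / 4) := by
    rw [← Real.rpow_add hH0]; congr 1; ring
  have hRge : (H : ℝ) ^ (ε₁ / 4) ≤ R := by
    have h1 := Nat.lt_floor_add_one ((H : ℝ) ^ (ε₁ / 2))
    rw [← hR] at h1
    rw [hp4] at h1
    nlinarith
  have hRle : (R : ℝ) ≤ (H : ℝ) ^ (ε₁ / 2) := by rw [hR]; exact Nat.floor_le (by positivity)
  have hR2 : 2 ≤ R := by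
    have : (2 : ℝ) ≤ R := by linarith
    exact_mod_cast this
  have hRpos : (0 : ℝ) < R := by linarith
  have hlR : ε₁ / 4 * Real.log H ≤ Real.log R := by
    rw [← Real.log_rpow hH0]
    exact Real.log_le_log (by positivity) hRge
  have hPZ : ∀ p ∈ PZ H ε₁, p.Prime ∧ p ≤ H := by
    intro p hp
    unfold PZ at hp
    rw [mem_filter, mem_Icc] at hp
    exact ⟨hp.2.1, hp.1.2⟩
  -- V is at most the product over PZ
  have hV : V (fn (L1 a b * Q)) 1 H ≤ ∏ p ∈ PZ H ε₁, (1 - (rt (fn (L1 a b * Q)) p : ℝ) / p) := by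
    unfold V
    have hsub : PZ H ε₁ ⊆ PS 1 H := by
      intro p hp
      obtain ⟨h1, h2⟩ := hPZ p hp
      unfold PS
      rw [mem_filter, mem_Icc, Nat.dvd_one]
      exact ⟨⟨h1.one_le, h2⟩, h1, h1.ne_one⟩
    rw [← prod_sdiff hsub]
    exact mul_le_of_le_one_left (prod_nonneg fun p _ => fac_nonneg p)
      (prod_le_one (fun p _ => fac_nonneg p) (fun p _ => fac_le p))
  have hP : ∏ p ∈ PZ H ε₁, (1 - (rt (fn (L1 a b * Q)) p : ℝ) / p) =
      (∏ p ∈ PZ H ε₁, (if p ∣ a then (1 : ℝ) else 1 - 1 / (p : ℝ))) * ∏ p ∈ PZ H ε₁, (1 - (OmL a b Q p).card * wL a p) := by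
    rw [← prod_mul_distrib]
    exact prod_congr rfl fun p hp => fac_eq hab Q (hPZ p hp).1
  have hif : ∀ p : ℕ, p.Prime → 0 ≤ (if p ∣ a then (1 : ℝ) else 1 - 1 / (p : ℝ)) ∧ (if p ∣ a then (1 : ℝ) else 1 - 1 / (p : ℝ)) ≤ 1 := by
    intro p hp
    have h2 : (2 : ℝ) ≤ p := by exact_mod_cast hp.two_le
    have h3 : 1 / (p : ℝ) ≤ 1 := by rw [div_le_one (by linarith)]; linarith
    have h4 : 0 ≤ 1 / (p : ℝ) := by positivity
    split_ifs
    · exact ⟨zero_le_one, le_rfl⟩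
    · exact ⟨by linarith, by linarith⟩
  have hPI : ∏ p ∈ PZ H ε₁, (if p ∣ a then (1 : ℝ) else 1 - 1 / (p : ℝ)) ≤ PIj a R 1 := by
    have hsub : PS a R ⊆ PZ H ε₁ := by
      intro p hp
      unfold PS at hp
      rw [mem_filter, mem_Icc] at hp
      unfold PZ
      rw [mem_filter, mem_Icc]
      have h1 : (p : ℝ) ≤ (H : ℝ) ^ (ε₁ / 2) := le_trans (by exact_mod_cast hp.1.2) hRle
      have h2 : (H : ℝ) ^ (ε₁ / 2) < (H : ℝ) ^ ε₁ := Real.rpow_lt_rpow_of_exponent_lt hH1 (by linarith)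
      refine ⟨⟨hp.1.1, ?_⟩, hp.2.1, (tt_lt H p ε₁ (by omega) hp.2.1.pos).2 (h1.trans_lt h2)⟩
      have h3 : (p : ℝ) ≤ (H : ℝ) ^ (1 : ℝ) := h1.trans (Real.rpow_le_rpow_of_exponent_le hH1.le (by linarith))
      rw [Real.rpow_one] at h3
      exact_mod_cast h3
    rw [← prod_sdiff hsub]
    unfold PIj
    calc (∏ p ∈ PZ H ε₁ \ PS a R, (if p ∣ a then (1 : ℝ) else 1 - 1 / (p : ℝ))) *
        ∏ p ∈ PS a R, (if p ∣ a then (1 : ℝ) else 1 - 1 / (p : ℝ)) ≤
        1 * ∏ p ∈ PS a R, (if p ∣ a then (1 : ℝ) else 1 - 1 / (p : ℝ)) := by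
          apply mul_le_mul_of_nonneg_right
          · exact prod_le_one (fun p hp => (hif p (hPZ p (mem_sdiff.1 hp).1).1).1)
              (fun p hp => (hif p (hPZ p (mem_sdiff.1 hp).1).1).2)
          · exact prod_nonneg fun p hp => (hif p (hPZ p (hsub hp)).1).1
      _ = _ := by
          rw [one_mul]
          apply prod_congr rfl
          intro p hp
          unfold PS at hp
          rw [mem_filter] at hp
          rw [if_neg hp.2.2]
          norm_num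
  have hprb := Pool.Agent.TH423.SH.prb a R (by omega) hR2
  obtain ⟨W, hW⟩ : ∃ W : ℝ, W = ∏ p ∈ PZ H ε₁, (1 - (OmL a b Q p).card * wL a p) := ⟨_, rfl⟩
  have hW0 : 0 ≤ W := by
    rw [hW]
    exact prod_nonneg fun p hp => fac_pos' Q hA (hPZ p hp).1
  rw [← hW] at hP ⊢
  have hPI0 : 0 ≤ PIj a R 1 := by
    unfold PIj
    apply prod_nonneg
    intro p hp
    unfold PS at hp
    rw [mem_filter] at hp
    have h2 : (2 : ℝ) ≤ p := by exact_mod_cast hp.2.1.two_le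
    have h3 : ((1 : ℕ) : ℝ) / (p : ℝ) ≤ 1 := by rw [div_le_one (by linarith)]; push_cast; linarith
    linarith
  calc ε₁ / 4 * Real.log H * Nat.totient a * V (fn (L1 a b * Q)) 1 H ≤
      ε₁ / 4 * Real.log H * Nat.totient a * (PIj a R 1 * W) := by
        apply mul_le_mul_of_nonneg_left _ (by positivity)
        rw [hP] at hV
        exact hV.trans (mul_le_mul_of_nonneg_right hPI hW0)
    _ ≤ Real.log R * Nat.totient a * (PIj a R 1 * W) := by
        apply mul_le_mul_of_nonneg_right _ (mul_nonneg hPI0 hW0)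
        exact mul_le_mul_of_nonneg_right hlR (Nat.cast_nonneg _)
    _ = (PIj a R 1 * Real.log R * Nat.totient a) * W := by ring
    _ ≤ a * W := mul_le_mul_of_nonneg_right hprb hW0

/-- the number of the primes -/
theorem piL (A : ℕ) : ∃ H₀ : ℕ, ∀ H : ℕ, H₀ ≤ H → ∀ (a : ℕ) (b : ℤ), 1 ≤ a → (a : ℝ) ≤ Real.log H ^ A →
    ((|b| : ℤ) : ℝ) ≤ Real.log H ^ A → ∀ x0 x1 : ℕ, (x0 : ℤ) = a * H + b → (x1 : ℤ) = a * (H + H : ℕ) + b →
    (a : ℝ) * H / (8 * Real.log H) ≤ pi1 x1 - pi1 x0 := by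
  classical
  obtain ⟨H₁, h1⟩ := Pool.Agent.Zk41.PY.pi_low
  have v1 := ev_log A 1 1 one_pos
  have v2 := ev_log (A + 1) 32 1 one_pos
  obtain ⟨H₂, hH₂⟩ := eventually_atTop.1 (v1.and v2)
  refine ⟨H₁ + H₂ + 3, fun H hH a b ha haA hbA x0 x1 h0 hx1 => ?_⟩
  obtain ⟨w1, w2⟩ := hH₂ H (by omega)
  rw [Real.rpow_one, one_mul] at w1
  rw [Real.rpow_one] at w2
  have hHr : (3 : ℝ) ≤ H := by exact_mod_cast (by omega : 3 ≤ H)
  have hH0 : (0 : ℝ) < H := by linarith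
  have hL : 0 < Real.log H := Real.log_pos (by linarith)
  have haR : (1 : ℝ) ≤ a := by exact_mod_cast ha
  have haH : H ≤ a * H := Nat.le_mul_of_pos_left _ (by omega)
  have g1 := h1 (a * H) (by omega)
  have hlog : Real.log ((a * H : ℕ) : ℝ) ≤ 2 * Real.log H := by
    push_cast
    rw [Real.log_mul (by linarith) (by linarith)]
    have : Real.log a ≤ Real.log H := Real.log_le_log (by linarith) (haA.trans w1)
    linarith
  have hlog0 : 0 < Real.log ((a * H : ℕ) : ℝ) := by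
    apply Real.log_pos
    have : (3 : ℝ) ≤ ((a * H : ℕ) : ℝ) := by exact_mod_cast (by omega : 3 ≤ a * H)
    linarith
  have g2 : (a : ℝ) * H / (4 * Real.log H) ≤ (((Ioc (a * H) (a * H + a * H)).filter Nat.Prime).card : ℝ) := by
    refine le_trans ?_ g1
    push_cast
    apply div_le_div_of_nonneg_left (by positivity) (by push_cast at hlog0; linarith)
    push_cast at hlog
    linarith
  have hx : x0 ≤ x1 := by
    have h3 : (x0 : ℤ) ≤ x1 := by
      rw [h0, hx1]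
      push_cast
      have : (0 : ℤ) ≤ (a : ℤ) * H := by positivity
      nlinarith
    exact_mod_cast h3
  have hcard : (((Ioc x0 x1).filter Nat.Prime).card : ℝ) = pi1 x1 - pi1 x0 := by
    unfold pi1
    rw [Pool.Agent.TH423.SH.PSUa.cnt (fun p => p.Prime) x0 x1 hx]
  rw [← hcard]
  -- the primes near the ends
  have hsub : (Ioc (a * H) (a * H + a * H)).filter Nat.Prime ⊆ (Ioc x0 x1).filter Nat.Prime ∪
      (Icc (a * H) (a * H + b.natAbs) ∪ Icc (a * H + a * H - b.natAbs) (a * H + a * H)) := by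
    intro p hp
    rw [mem_filter, mem_Ioc] at hp
    obtain ⟨⟨p1, p2⟩, p3⟩ := hp
    rw [mem_union, mem_union, mem_filter, mem_Ioc, mem_Icc, mem_Icc]
    by_cases c1 : p ≤ a * H + b.natAbs
    · right; left; exact ⟨p1.le, c1⟩
    by_cases c2 : a * H + a * H - b.natAbs ≤ p
    · right; right; exact ⟨c2, p2⟩
    left
    push Not at c1 c2
    have e1 : (x0 : ℤ) = ((a * H : ℕ) : ℤ) + b := by rw [h0]; push_cast; ring
    have e2 : (x1 : ℤ) = ((a * H : ℕ) : ℤ) + ((a * H : ℕ) : ℤ) + b := by rw [hx1]; push_cast; ring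
    refine ⟨⟨?_, ?_⟩, p3⟩ <;> omega
  have hc := (card_le_card hsub).trans ((card_union_le _ _).trans (Nat.add_le_add_left (card_union_le _ _) _))
  rw [Nat.card_Icc, Nat.card_Icc] at hc
  have hc2 : ((Ioc (a * H) (a * H + a * H)).filter Nat.Prime).card ≤ ((Ioc x0 x1).filter Nat.Prime).card + 2 * (b.natAbs + 1) := by
    omega
  have hc3 : (((Ioc (a * H) (a * H + a * H)).filter Nat.Prime).card : ℝ) ≤ (((Ioc x0 x1).filter Nat.Prime).card : ℝ) + 2 * (b.natAbs + 1) := by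
    exact_mod_cast hc2
  have hb : ((b.natAbs : ℕ) : ℝ) ≤ Real.log H ^ A := by
    have e : ((b.natAbs : ℕ) : ℝ) = ((|b| : ℤ) : ℝ) := by
      rw [← Int.natCast_natAbs]; simp
    rw [e]; exact hbA
  have hone : (1 : ℝ) ≤ Real.log H ^ A := haR.trans haA
  have hsmall : 2 * (Real.log H ^ A + 1) ≤ (a : ℝ) * H / (8 * Real.log H) := by
    rw [le_div_iff₀ (by positivity)]
    have h5 : 1 * (H : ℝ) ≤ a * H := mul_le_mul_of_nonneg_right haR hH0.le
    have h6 : 2 * (Real.log H ^ A + 1) * (8 * Real.log H) ≤ 32 * Real.log H ^ (A + 1) := by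
      rw [pow_succ]
      have := mul_le_mul_of_nonneg_right hone hL.le
      linarith
    linarith
  have e3 : (a : ℝ) * H / (4 * Real.log H) = 2 * ((a : ℝ) * H / (8 * Real.log H)) := by
    field_simp
    ring
  linarith

end Pool.Agent.Zk41.P5
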