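import Pool.Agent.Zk41.P5.C
import Pool.Agent.Zk41.P4.Rich
import Pool.Agent.Y882.KW.Alm

/-!
Zk41/P5 (helper41): the weighted sieve for the primes `a n + b`.
-/

set_option autoImplicit false

open Finset Filter Polynomial

namespace Pool.Agent.Zk41.P5

open H343E (pi1)

open Pool.Agent.TH423.SH (PS PIj)
open Pool.Agent.Y677.RSZ (rt V rt_le fac_nonneg fac_le ev_log)
open Pool.Agent.K3h89.SZ (SysP)
open Pool.Agent.Zk41.PY (fn AdmP dvd_iff sysP_poly)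
open Pool.Agent.Y882
open Pool.Agent.Y882.KW
open Pool.Agent.W23.DC
open Pool.Agent.K3h19.RV (Lam)
open Pool.Agent.K3h31.LP (pr_facts pr_sq)

theorem Lam_pos (r : ℕ) (hr : 1 ≤ r) : 1 ≤ Lam r := by
  unfold Lam
  have h3 : (3 : ℝ) ≤ 3 ^ r := by
    calc (3 : ℝ) = 3 ^ 1 := (pow_one _).symm
      _ ≤ 3 ^ r := pow_le_pow_right₀ (by norm_num) hr
  have h1 : 0 ≤ Real.log ((3 ^ r + 1) / 4) := Real.log_nonneg (by linarith)
  have h2 : 0 < Real.log 3 := Real.log_pos (by norm_num)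
  have := div_nonneg h1 h2.le
  linarith

open Classical in
/-- the sieve identity and the error terms -/
theorem sieve5 (κ : ℕ) (P : Finset ℕ) (hP : ∀ p ∈ P, p.Prime) (c : Finset ℕ → ℝ) (L D : ℝ) (hL : 0 ≤ L)
    (J : Finset ℕ) (Om : ℕ → Finset ℕ) (X : ℝ) (w : ℕ → ℝ) (Er : ℕ → ℝ) (hEr : ∀ q, 0 ≤ Er q)
    (hcL : ∀ T, |c T| ≤ L) (hcD : ∀ T ⊆ P, c T ≠ 0 → ((∏ p ∈ T, p : ℕ) : ℝ) ≤ D)
    (hOm : ∀ p ∈ P, (Om p).card ≤ κ)
    (herr : ∀ T ⊆ P, ((∏ p ∈ T, p : ℕ) : ℝ) ≤ D →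
      |((J.filter (fun n => ∀ p ∈ T, n % p ∈ Om p)).card : ℝ) - X * ∏ p ∈ T, ((Om p).card * w p)| ≤
        (∏ p ∈ T, ((Om p).card : ℝ)) * Er (∏ p ∈ T, p))
    (N : ℕ → ℕ) (hN : ∀ n ∈ J, ∀ p ∈ P, p ∣ N n ↔ n % p ∈ Om p) :
    X * VV P c (fun p => (Om p).card * w p) - L * ∑ d ∈ Icc 1 ⌊D⌋₊, (κ : ℝ) ^ d.primeFactors.card * Er d ≤
      ∑ n ∈ J, VV P c (fun p => if p ∣ N n then 1 else 0) := by
  have e1 : ∑ n ∈ J, VV P c (fun p => if p ∣ N n then 1 else 0) =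
      ∑ T ∈ P.powerset, c T * ((J.filter (fun n => ∀ p ∈ T, n % p ∈ Om p)).card : ℝ) := by
    unfold VV
    rw [sum_comm]
    apply sum_congr rfl
    intro T hT
    rw [mem_powerset] at hT
    rw [card_filter]
    push_cast
    rw [mul_sum]
    apply sum_congr rfl
    intro n hn
    congr 1
    by_cases h : ∀ p ∈ T, n % p ∈ Om p
    · rw [if_pos h]
      apply prod_eq_one
      intro p hp
      rw [if_pos ((hN n hn p (hT hp)).2 (h p hp))]
    · rw [if_neg h]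
      push Not at h
      obtain ⟨p, hp, hpn⟩ := h
      apply prod_eq_zero hp
      rw [if_neg (fun h2 => hpn ((hN n hn p (hT hp)).1 h2))]
  have e2 : X * VV P c (fun p => (Om p).card * w p) = ∑ T ∈ P.powerset, c T * (X * ∏ p ∈ T, ((Om p).card * w p)) := by
    unfold VV
    rw [mul_sum]
    apply sum_congr rfl
    intro T _
    ring
  have e3 : ∑ n ∈ J, VV P c (fun p => if p ∣ N n then 1 else 0) - X * VV P c (fun p => (Om p).card * w p) =
      ∑ T ∈ P.powerset, c T * (((J.filter (fun n => ∀ p ∈ T, n % p ∈ Om p)).card : ℝ) - X * ∏ p ∈ T, ((Om p).card * w p)) := by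
    rw [e1, e2, ← sum_sub_distrib]
    apply sum_congr rfl
    intro T _
    ring
  have e4 : |∑ T ∈ P.powerset, c T * (((J.filter (fun n => ∀ p ∈ T, n % p ∈ Om p)).card : ℝ) - X * ∏ p ∈ T, ((Om p).card * w p))| ≤
      ∑ T ∈ P.powerset.filter (fun T : Finset ℕ => ((∏ p ∈ T, p : ℕ) : ℝ) ≤ D), L * ((κ : ℝ) ^ T.card * Er (∏ p ∈ T, p)) := by
    refine (abs_sum_le_sum_abs _ _).trans ?_
    rw [sum_filter]
    apply sum_le_sum
    intro T hT
    rw [mem_powerset] at hT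
    rw [abs_mul]
    split_ifs with hD
    · apply mul_le_mul (hcL T) _ (abs_nonneg _) hL
      refine (herr T hT hD).trans ?_
      apply mul_le_mul_of_nonneg_right _ (hEr _)
      calc ∏ p ∈ T, ((Om p).card : ℝ) ≤ ∏ p ∈ T, (κ : ℝ) := by
            apply Finset.prod_le_prod
            · intro p _; positivity
            · intro p hp; exact_mod_cast hOm p (hT hp)
        _ = _ := by rw [prod_const]
    · have : c T = 0 := by
        by_contra h0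
        exact hD (hcD T hT h0)
      rw [this, abs_zero, zero_mul]
  have e5 : ∑ T ∈ P.powerset.filter (fun T : Finset ℕ => ((∏ p ∈ T, p : ℕ) : ℝ) ≤ D), L * ((κ : ℝ) ^ T.card * Er (∏ p ∈ T, p)) ≤
      L * ∑ d ∈ Icc 1 ⌊D⌋₊, (κ : ℝ) ^ d.primeFactors.card * Er d := by
    rw [← mul_sum]
    apply mul_le_mul_of_nonneg_left _ hL
    have hprT : ∀ T ∈ P.powerset.filter (fun T : Finset ℕ => ((∏ p ∈ T, p : ℕ) : ℝ) ≤ D), (∏ p ∈ T, p).primeFactors = T := by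
      intro T hT
      rw [mem_filter, mem_powerset] at hT
      exact Nat.primeFactors_prod (fun p hp => hP p (hT.1 hp))
    have h1 : ∑ T ∈ P.powerset.filter (fun T : Finset ℕ => ((∏ p ∈ T, p : ℕ) : ℝ) ≤ D), ((κ : ℝ) ^ T.card * Er (∏ p ∈ T, p)) =
        ∑ d ∈ (P.powerset.filter (fun T : Finset ℕ => ((∏ p ∈ T, p : ℕ) : ℝ) ≤ D)).image (fun T => ∏ p ∈ T, p),
          (κ : ℝ) ^ d.primeFactors.card * Er d := by
      rw [sum_image]
      · apply sum_congr rfl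
        intro T hT
        rw [hprT T hT]
      · intro T hT T' hT' h
        have h2 := hprT T hT
        have h3 := hprT T' hT'
        rw [← h2, ← h3]
        exact congrArg _ h
    rw [h1]
    apply sum_le_sum_of_subset_of_nonneg
    · intro d hd
      rw [mem_image] at hd
      obtain ⟨T, hT, rfl⟩ := hd
      rw [mem_filter, mem_powerset] at hT
      rw [mem_Icc]
      refine ⟨Nat.one_le_iff_ne_zero.2 (prod_ne_zero_iff.2 (fun p hp => (hP p (hT.1 hp)).ne_zero)), ?_⟩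
      exact Nat.le_floor hT.2
    · intro d _ _
      exact mul_nonneg (by positivity) (hEr d)
  rw [← e3] at e4
  have e6 := (abs_le.1 (e4.trans e5)).1
  linarith

open Classical in
/-- **The weighted sieve for the primes `a n + b`.** -/
theorem low5 (g r : ℕ) (hr : 1 ≤ r) (D : ℝ) (hD0 : 0 < D) (hD : 2 * D < Lam r) (A : ℕ) (K : ℝ) (hK : 0 < K)
    (Good : ℕ → ℕ → ℤ → ℤ[X] → Prop)
    (hM : ∀ ε₁ υ η : ℝ, 0 < ε₁ → υ ≤ 1 → 0 < η → ∃ H₀ : ℕ, ∀ H : ℕ, H₀ ≤ H → ∀ (a : ℕ) (b : ℤ) (G : ℤ[X]),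
      Good H a b G → Mer (pr H ε₁ υ) (tt H) (fun p => ((OmL a b G p).card : ℝ) * wL a p) ε₁ υ η)
    (hS : ∀ ζ : ℝ, 0 < ζ → ∃ H₀ : ℕ, ∀ H : ℕ, H₀ ≤ H → ∀ (a : ℕ) (b : ℤ) (G : ℤ[X]), Good H a b G →
      ∀ q : ℕ, q.Prime → (H : ℝ) ^ ζ ≤ q →
        (((Ioc H (H + H)).filter (fun n : ℕ => ((q ^ 2 : ℕ) : ℤ) ∣ fn G n)).card : ℝ) ≤ K * (H * (1 / (q : ℝ) ^ 2) + 1))
    (hZ : ∃ H₀ : ℕ, ∀ H : ℕ, H₀ ≤ H → ∀ (a : ℕ) (b : ℤ) (G : ℤ[X]), Good H a b G → ∀ n ∈ Ioc H (H + H),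
      fn G n ≠ 0 ∧ ((fn G n).natAbs : ℝ) ≤ (H : ℝ) ^ D) :
    ∃ δ ζ c : ℝ, 0 < δ ∧ D / (4 * Lam r) ≤ ζ ∧ 0 < c ∧ ∃ H₀ : ℕ, ∀ H : ℕ, H₀ ≤ H → ∀ (a : ℕ) (b : ℤ) (G Q : ℤ[X]),
      Good H a b G → 1 ≤ a → (a : ℝ) ≤ Real.log H ^ A → ((|b| : ℤ) : ℝ) ≤ Real.log H ^ A → G ∣ Q →
      AdmP (L1 a b * Q) → Q.natDegree ≤ g →
      ∃ S ⊆ Ioc H (H + H), (∀ n ∈ S, ((a : ℤ) * n + b).natAbs.Prime ∧
        (∀ p : ℕ, p.Prime → (p : ℝ) ≤ (H : ℝ) ^ δ → ¬ (p : ℤ) ∣ fn (L1 a b * Q) n) ∧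
        (fn G n).natAbs.primeFactorsList.length ≤ r ∧
        ∀ p : ℕ, p.Prime → p ∣ (fn G n).natAbs → (H : ℝ) ^ ζ ≤ p) ∧
        c * (H * V (fn (L1 a b * Q)) 1 H) ≤ S.card := by
  have hL1 := Lam_pos r hr
  have hL0 : 0 < Lam r := by linarith
  have hDL : D / Lam r < 1 / 2 := by rw [div_lt_iff₀ hL0]; linarith
  have hDL0 : 0 < D / Lam r := by positivity
  obtain ⟨τ, hτd⟩ : ∃ τ : ℝ, τ = (D / Lam r + 1 / 2) / 2 := ⟨_, rfl⟩
  have hτ0 : 0 < τ := by rw [hτd]; positivity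
  have hτh : τ < 1 / 2 := by rw [hτd]; linarith
  have hτL : D < τ * Lam r := by
    have h1 : D / Lam r < τ := by rw [hτd]; linarith
    rwa [div_lt_iff₀ hL0] at h1
  obtain ⟨υ, lam, S, hτυ, hυτ, hlam, hDS, hrS, hint⟩ := Pool.Agent.Zk41.P4.richertD r hr D τ hD0 hτ0 hτL
  have hυ0 : 0 < υ := by linarith
  obtain ⟨τ', hτ'd⟩ : ∃ τ' : ℝ, τ' = (τ + 1 / 2) / 2 := ⟨_, rfl⟩
  have hττ' : τ < τ' := by rw [hτ'd]; linarith
  have hτ'h : τ' < 1 / 2 := by rw [hτ'd]; linarith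
  have hτ'0 : 0 < τ' := by linarith
  obtain ⟨ε₁, η, f, hε₁, hε₁ζ, hε₁β, hη, hf, Y0, HC⟩ :=
    core3 (g + 1) τ (τ / 4) υ lam (lam / υ) τ' 1 (by linarith) (by linarith) (by linarith) (by linarith) hτυ hυτ
      hlam.le (by positivity) (by rw [div_mul_cancel₀ _ hυ0.ne']) hint hττ' one_pos
  obtain ⟨Y1, HM⟩ := hM ε₁ υ η hε₁ (by linarith) hη
  obtain ⟨Y2, HS⟩ := hS (τ / 4) (by linarith)
  obtain ⟨Y3, HZ⟩ := hZ
  obtain ⟨Y4, HB⟩ := bvcls ((g + 1 : ℕ) : ℝ) (by push_cast; linarith [Nat.cast_nonneg (α := ℝ) g]) A (2 * (g + 1) + 2) τ' hτ'0 hτ'h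
  obtain ⟨Y5, HP⟩ := prodV ε₁ hε₁ hε₁β
  obtain ⟨Y6, HL⟩ := piL A
  obtain ⟨c₁, hc₁, Y7, HV⟩ := Pool.Agent.Zk41.LS.V_low1 (g + 1)
  have hcast : Tendsto (fun H : ℕ => (H : ℝ)) atTop atTop := tendsto_natCast_atTop_atTop
  have hlogt : Tendsto (fun H : ℕ => Real.log H) atTop atTop := Real.tendsto_log_atTop.comp hcast
  obtain ⟨c0, hc0⟩ : ∃ c0 : ℝ, c0 = f * ε₁ / 32 := ⟨_, rfl⟩
  have hc0p : 0 < c0 := by rw [hc0]; positivity
  have v1 := hlogt.eventually_ge_atTop (20 / (c0 * c₁))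
  have v2 := ev_log (2 * (g + 1)) (16 * K / (c0 * c₁)) (τ / 4) (by linarith)
  have v3 := ev_log (2 * (g + 1)) (16 * K / (c0 * c₁)) (1 - υ) (by linarith)
  have v4 : ∀ᶠ H : ℕ in atTop, (2 : ℝ) ≤ (H : ℝ) ^ (τ / 4) :=
    ((tendsto_rpow_atTop (by linarith)).comp hcast).eventually_ge_atTop _
  have v5 : ∀ᶠ H : ℕ in atTop, (4 : ℝ) ≤ (H : ℝ) ^ (1 - υ) :=
    ((tendsto_rpow_atTop (by linarith)).comp hcast).eventually_ge_atTop _
  have v6 := ev_log A 2 1 one_pos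
  obtain ⟨Y8, hY8⟩ := eventually_atTop.1 (v1.and (v2.and (v3.and (v4.and (v5.and v6)))))
  refine ⟨ε₁ / 2, τ / 4, c0 / 4, by linarith, by
    rw [div_le_div_iff₀ (by positivity) (by norm_num)]; nlinarith, by positivity,
    Y0 + Y1 + Y2 + Y3 + Y4 + Y5 + Y6 + Y7 + Y8 + 4, fun H hH a b G Q hGood ha haA hbA hGQ hAdm hQg => ?_⟩
  obtain ⟨w1, w2, w3, w4, w5, w6⟩ := hY8 H (by omega)
  rw [Real.rpow_one] at w6
  have hH4 : (4 : ℝ) ≤ H := by exact_mod_cast (by omega : 4 ≤ H)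
  have hH0 : (0 : ℝ) < H := by linarith
  have hH1 : (1 : ℝ) < H := by linarith
  have hlH : 0 < Real.log H := Real.log_pos hH1
  have haR : (1 : ℝ) ≤ a := by exact_mod_cast ha
  have hab := cop_adm a b Q hAdm
  obtain ⟨c, hcL, hcD, hcW, hcM⟩ := HC H (by omega)
  have hMer := HM H (by omega) a b G hGood
  have hSq := HS H (by omega) a b G hGood
  have hSz := HZ H (by omega) a b G hGood
  -- the ends
  obtain ⟨x0, hx0⟩ : ∃ x0 : ℕ, (x0 : ℤ) = a * H + b := by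
    have hb1 : (|b| : ℤ) ≤ H := by
      have : ((|b| : ℤ) : ℝ) ≤ H := by
        have h1 : 0 ≤ Real.log H ^ A := by positivity
        linarith
      exact_mod_cast this
    have h2 := neg_abs_le b
    have h3 : (H : ℤ) ≤ a * H := by
      have : (1 : ℤ) ≤ a := by exact_mod_cast ha
      nlinarith [Int.natCast_nonneg H]
    obtain ⟨x, hx⟩ := Int.eq_ofNat_of_zero_le (show 0 ≤ (a : ℤ) * H + b by linarith)
    exact ⟨x, hx.symm⟩
  obtain ⟨x1, hx1⟩ : ∃ x1 : ℕ, (x1 : ℤ) = a * (H + H : ℕ) + b := by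
    refine ⟨x0 + a * H, ?_⟩
    push_cast
    rw [hx0]
    ring
  obtain ⟨Er, hEr0, hErs, hErb⟩ := HB H (by omega) a b ha haA hbA hab x0 x1 hx0 hx1
  have hX := HL H (by omega) a b ha haA hbA x0 x1 hx0 hx1
  have hProd := HP H (by omega) a b Q ha hAdm
  have hdeg : (L1 a b * Q).natDegree ≤ g + 1 := by
    refine natDegree_mul_le.trans ?_
    have : (L1 a b).natDegree ≤ 1 := by
      unfold L1
      exact natDegree_linear_le
    omega
  have hF : SysP (g + 1) (fn (L1 a b * Q)) := sysP_poly (g + 1) _ hAdm hdeg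
  have hVl := HV (fn (L1 a b * Q)) H hF (by omega)
  obtain ⟨Vv, hVv⟩ : ∃ Vv : ℝ, Vv = V (fn (L1 a b * Q)) 1 H := ⟨_, rfl⟩
  rw [← hVv] at hProd hVl ⊢
  have hL2 : 0 < Real.log H ^ (2 * (g + 1)) := by positivity
  have hVpos : 0 < Vv := lt_of_lt_of_le (by positivity) hVl
  -- the classes
  obtain ⟨Om, hOmd⟩ : ∃ Om : ℕ → Finset ℕ, Om = fun p => if tt H p < ε₁ then OmL a b Q p else OmL a b G p := ⟨_, rfl⟩
  have hOmQ : ∀ p, tt H p < ε₁ → Om p = OmL a b Q p := by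
    intro p hp; rw [hOmd]; exact if_pos hp
  have hOmG : ∀ p, ¬ tt H p < ε₁ → Om p = OmL a b G p := by
    intro p hp; rw [hOmd]; exact if_neg hp
  have hGQ' : ∀ x : ℤ, ∀ p : ℤ, p ∣ fn G x → p ∣ fn Q x := by
    intro x p h
    obtain ⟨Q', hQ'⟩ := hGQ
    unfold fn at h ⊢
    rw [hQ', eval_mul]
    exact h.mul_right _
  have hsubO : ∀ p, Om p ⊆ OmL a b Q p := by
    intro p
    by_cases h : tt H p < ε₁
    · rw [hOmQ p h]
    · rw [hOmG p h]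
      intro r hr
      rw [mem_OmL] at hr ⊢
      exact ⟨hr.1, hr.2.1, hGQ' _ _ hr.2.2⟩
  have hPZ : ∀ w : ℝ, ∀ p ∈ PZ H w, p.Prime ∧ p ≤ H ∧ (p : ℝ) < (H : ℝ) ^ w := by
    intro w p hp
    unfold PZ at hp
    rw [mem_filter, mem_Icc] at hp
    exact ⟨hp.2.1, hp.1.2, (tt_lt H p w (by omega) hp.2.1.pos).1 hp.2.2⟩
  have hcardQ : ∀ p : ℕ, p.Prime → (OmL a b Q p).card ≤ g + 1 := by
    intro p hp
    have h1 := (hF.root p hp).1
    by_cases hpa : p ∣ a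
    · rw [rt_dvd hab Q hp hpa] at h1
      exact h1
    · rw [rt_ndvd a b Q hp hpa] at h1
      omega
  have hcardO : ∀ p ∈ PZ H υ, (Om p).card ≤ g + 1 := fun p hp =>
    (card_le_card (hsubO p)).trans (hcardQ p (hPZ υ p hp).1)
  -- the virtual integers
  obtain ⟨N, hNd⟩ : ∃ N : ℕ → ℕ, N = fun n => ∏ p ∈ (PZ H υ).filter (fun p => n % p ∈ Om p), p := ⟨_, rfl⟩
  have hN : ∀ n, ∀ p ∈ PZ H υ, p ∣ N n ↔ n % p ∈ Om p := by
    intro n p hp
    have hpp := (hPZ υ p hp).1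
    rw [hNd]
    simp only
    rw [hpp.prime.dvd_finsetProd_iff]
    constructor
    · rintro ⟨q, hq, hpq⟩
      rw [mem_filter] at hq
      have := (Nat.prime_dvd_prime_iff_eq hpp (hPZ υ q hq.1).1).1 hpq
      rw [this]
      exact hq.2
    · intro h
      exact ⟨p, mem_filter.2 ⟨hp, h⟩, dvd_rfl⟩
  obtain ⟨X, hXd⟩ : ∃ X : ℝ, X = (pi1 x1 - pi1 x0) / Nat.totient a := ⟨_, rfl⟩
  have hφ : (0 : ℝ) < Nat.totient a := by exact_mod_cast Nat.totient_pos.2 (by omega)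
  have hX0 : 0 ≤ X := by
    rw [hXd]
    apply div_nonneg _ hφ.le
    exact le_trans (by positivity) hX
  have hsv := sieve5 (g + 1) (PZ H υ) (fun p hp => (hPZ υ p hp).1) c (5 * Real.log H) ((H : ℝ) ^ τ') (by positivity)
    (JL a b H) Om X (wL a) Er hEr0 hcL hcD hcardO (by
      intro T hT hTD
      have h1 := hErb T (fun p hp => (hPZ υ p (hT hp)).1) hTD Om (by
        intro p hp c hc
        have h2 := hsubO p hc
        rw [mem_OmL] at h2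
        exact ⟨h2.1, h2.2.1⟩)
      rw [hXd]
      convert h1 using 4) N (fun n _ p hp => hN n p hp)
  have hWs : ∑ n ∈ JL a b H, VV (PZ H υ) c (fun p => if p ∣ N n then 1 else 0) ≤
      (((JL a b H).filter (fun n => 0 < WW H (τ / 4) υ lam (lam / υ) (N n))).card : ℝ) := by
    rw [card_filter]
    push_cast
    apply sum_le_sum
    intro n _
    refine (hcW (N n)).trans ?_
    split_ifs with h
    · exact WW_le_one H (τ / 4) υ lam (lam / υ) (by positivity) (by rw [div_mul_cancel₀ _ hυ0.ne']) (N n)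
    · exact not_lt.1 h
  -- the main term
  have hmain := hcM (fun p => ((Om p).card : ℝ) * wL a p)
    (fun p hp => mul_nonneg (Nat.cast_nonneg _) (wL_nonneg a (hPZ υ p hp).1)) (by
      intro p hp
      have hpp := (hPZ ε₁ p hp).1
      have h1 := fac_pos' Q hAdm hpp
      have h2 : ((Om p).card : ℝ) ≤ (OmL a b Q p).card := by exact_mod_cast card_le_card (hsubO p)
      have h3 := mul_le_mul_of_nonneg_right h2 (wL_nonneg a hpp)
      show ((Om p).card : ℝ) * wL a p ≤ 1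
      linarith) (by
      intro p hp _
      have hpp := (hPZ ε₁ p hp).1
      have hp2 : (2 : ℝ) ≤ p := by exact_mod_cast hpp.two_le
      have h2 : ((Om p).card : ℝ) ≤ ((g + 1 : ℕ) : ℝ) := by
        exact_mod_cast (card_le_card (hsubO p)).trans (hcardQ p hpp)
      show ((Om p).card : ℝ) * wL a p ≤ ((g + 1 : ℕ) : ℝ) / ((p : ℝ) - 1)
      calc ((Om p).card : ℝ) * wL a p ≤ ((g + 1 : ℕ) : ℝ) * (1 / ((p : ℝ) - 1)) :=
            mul_le_mul h2 (wL_le a hpp) (wL_nonneg a hpp) (Nat.cast_nonneg _)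
        _ = _ := by ring) (by
      intro u v hu huv hv
      have h1 := hMer u v hu huv hv
      have h2 : ∑ p ∈ (pr H ε₁ υ).filter (fun p => u ≤ tt H p ∧ tt H p < v), ((Om p).card : ℝ) * wL a p =
          ∑ p ∈ (pr H ε₁ υ).filter (fun p => u ≤ tt H p ∧ tt H p < v), ((OmL a b G p).card : ℝ) * wL a p := by
        apply sum_congr rfl
        intro p hp
        rw [mem_filter] at hp
        rw [hOmG p (not_lt.2 (hu.trans hp.2.1))]
      rw [h2]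
      exact h1)
  have hprodO : ∏ p ∈ PZ H ε₁, (1 - ((Om p).card : ℝ) * wL a p) = ∏ p ∈ PZ H ε₁, (1 - ((OmL a b Q p).card : ℝ) * wL a p) := by
    apply prod_congr rfl
    intro p hp
    rw [hOmQ p ((tt_lt H p ε₁ (by omega) (hPZ ε₁ p hp).1.pos).2 (hPZ ε₁ p hp).2.2)]
  rw [hprodO] at hmain
  obtain ⟨W, hWd⟩ : ∃ W : ℝ, W = ∏ p ∈ PZ H ε₁, (1 - ((OmL a b Q p).card : ℝ) * wL a p) := ⟨_, rfl⟩
  rw [← hWd] at hmain hProd
  have hW0 : 0 ≤ W := by
    rw [hWd]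
    exact prod_nonneg fun p hp => fac_pos' Q hAdm (hPZ ε₁ p hp).1
  have hlow : c0 * (H * Vv) ≤ X * VV (PZ H υ) c (fun p => ((Om p).card : ℝ) * wL a p) := by
    refine le_trans ?_ (mul_le_mul_of_nonneg_left hmain hX0)
    -- c0 H V ≤ X f W
    have h1 : (a : ℝ) * H / (8 * Real.log H) / Nat.totient a ≤ X := by
      rw [hXd]
      exact div_le_div_of_nonneg_right hX hφ.le
    refine le_trans ?_ (mul_le_mul_of_nonneg_right h1 (by positivity))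
    have h2 : ε₁ / 4 * Real.log H * Nat.totient a * Vv * (f * H) ≤ a * W * (f * H) :=
      mul_le_mul_of_nonneg_right hProd (by positivity)
    rw [hc0, div_div, show (a : ℝ) * H / (8 * Real.log H * Nat.totient a) * (f * W) = a * W * (f * H) / (8 * Real.log H * Nat.totient a) by ring,
      le_div_iff₀ (by positivity)]
    calc f * ε₁ / 32 * (H * Vv) * (8 * Real.log H * Nat.totient a) = ε₁ / 4 * Real.log H * Nat.totient a * Vv * (f * H) := by ring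
      _ ≤ _ := h2
  have herrs : 5 * Real.log H * ∑ d ∈ Icc 1 ⌊(H : ℝ) ^ τ'⌋₊, ((g + 1 : ℕ) : ℝ) ^ d.primeFactors.card * Er d ≤ c0 / 4 * (H * Vv) := by
    have h1 : 5 * Real.log H * ∑ d ∈ Icc 1 ⌊(H : ℝ) ^ τ'⌋₊, ((g + 1 : ℕ) : ℝ) ^ d.primeFactors.card * Er d ≤
        5 * Real.log H * (H / Real.log H ^ (2 * (g + 1) + 2)) :=
      mul_le_mul_of_nonneg_left hErs (by positivity)
    refine h1.trans ?_
    have h2 : c0 / 4 * (H * (c₁ / Real.log H ^ (2 * (g + 1)))) ≤ c0 / 4 * (H * Vv) := by gcongr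
    refine le_trans ?_ h2
    rw [div_le_iff₀ (by positivity)] at w1
    have h3 : 5 * Real.log H * (H / Real.log H ^ (2 * (g + 1) + 2)) = 5 * H / (Real.log H ^ (2 * (g + 1)) * Real.log H) := by
      rw [pow_add]
      field_simp
    have h4 : c0 / 4 * (H * (c₁ / Real.log H ^ (2 * (g + 1)))) = c0 * c₁ / 4 * H / Real.log H ^ (2 * (g + 1)) := by ring
    rw [h3, h4, div_le_div_iff₀ (by positivity) hL2]
    have h5 : 5 * (H : ℝ) ≤ c0 * c₁ / 4 * H * Real.log H := by nlinarith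
    have h6 := mul_le_mul_of_nonneg_right h5 hL2.le
    nlinarith
  -- the squares
  obtain ⟨B, hBd⟩ : ∃ B : Finset ℕ, B = (Ioc H (H + H)).filter (fun n : ℕ => ∃ q ∈ pr H (τ / 4) υ, ((q ^ 2 : ℕ) : ℤ) ∣ fn G n) := ⟨_, rfl⟩
  have hBc : (B.card : ℝ) ≤ c0 / 4 * (H * Vv) := by
    have h1 : B.card ≤ ∑ q ∈ pr H (τ / 4) υ, ((Ioc H (H + H)).filter (fun n : ℕ => ((q ^ 2 : ℕ) : ℤ) ∣ fn G n)).card := by
      refine (Finset.card_le_card (t := (pr H (τ / 4) υ).biUnion (fun q => (Ioc H (H + H)).filter (fun n : ℕ => ((q ^ 2 : ℕ) : ℤ) ∣ fn G n))) ?_).trans card_biUnion_le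
      intro j hj
      rw [hBd, mem_filter] at hj
      obtain ⟨hj1, q, hq, hqd⟩ := hj
      rw [mem_biUnion]
      exact ⟨q, hq, mem_filter.2 ⟨hj1, hqd⟩⟩
    have h3 : (B.card : ℝ) ≤ ∑ q ∈ pr H (τ / 4) υ, K * (H * (1 / (q : ℝ) ^ 2) + 1) := by
      calc (B.card : ℝ) ≤ ∑ q ∈ pr H (τ / 4) υ, ((((Ioc H (H + H)).filter (fun n : ℕ => ((q ^ 2 : ℕ) : ℤ) ∣ fn G n)).card : ℕ) : ℝ) := by
            exact_mod_cast h1
        _ ≤ _ := by
            apply sum_le_sum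
            intro q hq
            obtain ⟨h3, h4, h5, h6⟩ := pr_facts (by omega) hq
            exact hSq q h3 h5
    have h4 : ∑ q ∈ pr H (τ / 4) υ, K * ((H : ℝ) * (1 / (q : ℝ) ^ 2) + 1) =
        K * ((H : ℝ) * ∑ q ∈ pr H (τ / 4) υ, 1 / (q : ℝ) ^ 2 + ((pr H (τ / 4) υ).card : ℝ)) := by
      rw [← mul_sum, sum_add_distrib, ← mul_sum, sum_const, nsmul_eq_mul, mul_one]
    have h5 := pr_sq (Y := H) (by omega) (τ / 4) υ w4
    have h6 : ((pr H (τ / 4) υ).card : ℝ) ≤ (H : ℝ) ^ υ := by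
      have h7 : pr H (τ / 4) υ ⊆ Icc 1 ⌊(H : ℝ) ^ υ⌋₊ := by
        intro q hq
        obtain ⟨g3, g4, g5, g6⟩ := pr_facts (by omega) hq
        rw [mem_Icc]
        exact ⟨g3.one_le, Nat.le_floor g6.le⟩
      calc ((pr H (τ / 4) υ).card : ℝ) ≤ ((Icc 1 ⌊(H : ℝ) ^ υ⌋₊).card : ℝ) := by exact_mod_cast Finset.card_le_card h7
        _ = (⌊(H : ℝ) ^ υ⌋₊ : ℝ) := by rw [Nat.card_Icc, Nat.add_sub_cancel]
        _ ≤ _ := Nat.floor_le (by positivity)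
    rw [h4] at h3
    refine h3.trans ?_
    have hNζ : (0 : ℝ) < (H : ℝ) ^ (τ / 4) := by positivity
    have h8 : K * ((H : ℝ) * ∑ q ∈ pr H (τ / 4) υ, 1 / (q : ℝ) ^ 2 + ((pr H (τ / 4) υ).card : ℝ)) ≤
        K * (H * (2 / (H : ℝ) ^ (τ / 4)) + (H : ℝ) ^ υ) := by gcongr
    refine h8.trans ?_
    have h9 : c0 / 4 * (H * (c₁ / Real.log H ^ (2 * (g + 1)))) ≤ c0 / 4 * (H * Vv) := by gcongr
    refine le_trans ?_ h9
    rw [div_mul_eq_mul_div, div_le_iff₀ (by positivity)] at w2 w3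
    have g1 : K * (H * (2 / (H : ℝ) ^ (τ / 4))) ≤ c0 / 8 * (H * (c₁ / Real.log H ^ (2 * (g + 1)))) := by
      rw [show K * ((H : ℝ) * (2 / (H : ℝ) ^ (τ / 4))) = (2 * K * H) / (H : ℝ) ^ (τ / 4) by ring,
        show c0 / 8 * ((H : ℝ) * (c₁ / Real.log H ^ (2 * (g + 1)))) = (c0 * c₁ / 8 * H) / Real.log H ^ (2 * (g + 1)) by ring,
        div_le_div_iff₀ hNζ hL2]
      nlinarith [mul_le_mul_of_nonneg_right w2 hH0.le]
    have g2 : K * (H : ℝ) ^ υ ≤ c0 / 8 * (H * (c₁ / Real.log H ^ (2 * (g + 1)))) := by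
      rw [show c0 / 8 * ((H : ℝ) * (c₁ / Real.log H ^ (2 * (g + 1)))) = (c0 * c₁ / 8 * H) / Real.log H ^ (2 * (g + 1)) by ring,
        le_div_iff₀ hL2]
      have g5 : (H : ℝ) ^ (1 - υ) * (H : ℝ) ^ υ = H := by
        rw [← Real.rpow_add hH0, show 1 - υ + υ = 1 by ring, Real.rpow_one]
      have g6 := mul_le_mul_of_nonneg_right w3 (show 0 ≤ (H : ℝ) ^ υ by positivity)
      have g7 : (H : ℝ) ^ (1 - υ) * (c0 * c₁) * (H : ℝ) ^ υ = c0 * c₁ * H := by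
        calc _ = c0 * c₁ * ((H : ℝ) ^ (1 - υ) * (H : ℝ) ^ υ) := by ring
          _ = _ := by rw [g5]
      rw [g7] at g6
      have : 0 ≤ K * (H : ℝ) ^ υ * Real.log H ^ (2 * (g + 1)) := by positivity
      nlinarith
    linarith
  -- the good points
  obtain ⟨S', hS'⟩ : ∃ S' : Finset ℕ, S' = ((JL a b H).filter (fun n => 0 < WW H (τ / 4) υ lam (lam / υ) (N n))) \ B := ⟨_, rfl⟩
  have hJ : ∀ n ∈ JL a b H, n ∈ Ioc H (H + H) ∧ ((a : ℤ) * n + b).natAbs.Prime := by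
    intro n hn
    unfold JL at hn
    rw [mem_filter] at hn
    exact hn
  -- the prime is large
  have hbig : ∀ n ∈ JL a b H, ∀ p : ℕ, p.Prime → (p : ℝ) < (H : ℝ) ^ υ → ¬ (p : ℤ) ∣ (a : ℤ) * n + b := by
    intro n hn p hp hpH hd
    obtain ⟨h1, h2⟩ := hJ n hn
    have h3 : p ∣ ((a : ℤ) * n + b).natAbs := Int.natCast_dvd.1 hd
    have h4 := (Nat.prime_dvd_prime_iff_eq hp h2).1 h3
    have h5 : (4 : ℝ) * (H : ℝ) ^ υ ≤ H := by
      have g5 : (H : ℝ) ^ (1 - υ) * (H : ℝ) ^ υ = H := by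
        rw [← Real.rpow_add hH0, show 1 - υ + υ = 1 by ring, Real.rpow_one]
      have := mul_le_mul_of_nonneg_right w5 (show 0 ≤ (H : ℝ) ^ υ by positivity)
      linarith
    rw [mem_Ioc] at h1
    have h6 : (H : ℝ) < n := by exact_mod_cast h1.1
    have h7 : ((p : ℕ) : ℝ) = |(a : ℝ) * n + b| := by
      rw [h4]
      have : ((((a : ℤ) * n + b).natAbs : ℕ) : ℝ) = (|(a : ℤ) * n + b| : ℤ) := by
        rw [← Int.natCast_natAbs]; simp
      rw [this]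
      push_cast
      rfl
    have h8 : (((|b| : ℤ)) : ℝ) ≤ H / 2 := by linarith
    have h9 : |(b : ℝ)| ≤ H / 2 := by
      have : (((|b| : ℤ)) : ℝ) = |(b : ℝ)| := by push_cast; rfl
      rw [← this]; exact h8
    have h10 := le_abs_self ((a : ℝ) * n + b)
    have h11 := (abs_le.1 h9).1
    have h12 : 1 * (n : ℝ) ≤ a * n := mul_le_mul_of_nonneg_right haR (Nat.cast_nonneg _)
    linarith
  have hmodG : ∀ (P : ℤ[X]) (n p : ℕ), (p : ℤ) ∣ fn P ((n % p : ℕ) : ℤ) ↔ (p : ℤ) ∣ fn P (n : ℤ) := by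
    intro P n p
    unfold fn
    refine dvd_iff P p (n : ℤ) ((n % p : ℕ) : ℤ) ?_
    have h3 : ((n % p : ℕ) : ℤ) - n = -((n : ℤ) - ((n % p : ℕ) : ℤ)) := by ring
    rw [h3, Int.natCast_mod]
    exact (Int.dvd_self_sub_emod).neg_right
  have hmodL : ∀ (n p : ℕ), (p : ℤ) ∣ (a : ℤ) * ((n % p : ℕ) : ℤ) + b ↔ (p : ℤ) ∣ (a : ℤ) * n + b := by
    intro n p
    have h1 := hmodG (L1 a b) n p
    unfold fn L1 at h1
    simpa using h1
  have hmemO : ∀ (P : ℤ[X]), ∀ n ∈ JL a b H, ∀ p ∈ PZ H υ, n % p ∈ OmL a b P p ↔ (p : ℤ) ∣ fn P n := by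
    intro P n hn p hp
    obtain ⟨h1, h2, h3⟩ := hPZ υ p hp
    rw [mem_OmL, hmodG, hmodL]
    constructor
    · intro h; exact h.2.2
    · intro h; exact ⟨Nat.mod_lt _ h1.pos, hbig n hn p h1 h3, h⟩
  have hζυ' : ∀ p, p ∈ PZ H (τ / 4) → p ∈ PZ H υ := by
    intro p hp
    unfold PZ at hp ⊢
    rw [mem_filter] at hp ⊢
    exact ⟨hp.1, hp.2.1, hp.2.2.trans_le hτυ⟩
  refine ⟨S', ?_, ?_, ?_⟩
  · rw [hS']
    intro n hn
    rw [Finset.mem_sdiff, mem_filter] at hn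
    exact (hJ n hn.1.1).1
  · intro n hn
    rw [hS', Finset.mem_sdiff, mem_filter] at hn
    obtain ⟨⟨hnJ, hnW⟩, hnB⟩ := hn
    obtain ⟨hnI, hnp⟩ := hJ n hnJ
    -- the small primes
    have hsm : ∀ p ∈ PZ H (τ / 4), ¬ p ∣ N n := by
      by_contra hcon
      unfold WW at hnW
      rw [if_neg hcon, zero_mul] at hnW
      exact lt_irrefl _ hnW
    have hsmG : ∀ p ∈ PZ H (τ / 4), ¬ p ∣ (fn G n).natAbs := by
      intro p hp hpd
      apply hsm p hp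
      rw [hN n p (hζυ' p hp)]
      have h1 : (p : ℤ) ∣ fn G n := Int.natCast_dvd.2 hpd
      by_cases h : tt H p < ε₁
      · rw [hOmQ p h, hmemO Q n hnJ p (hζυ' p hp)]
        exact hGQ' _ _ h1
      · rw [hOmG p h, hmemO G n hnJ p (hζυ' p hp)]
        exact h1
    have hWG : 0 < WW H (τ / 4) υ lam (lam / υ) (fn G n).natAbs := by
      have h1 : WW H (τ / 4) υ lam (lam / υ) (fn G n).natAbs = WW H (τ / 4) υ lam (lam / υ) (N n) := by
        unfold WW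
        rw [if_pos hsm, if_pos hsmG]
        congr 2
        apply sum_congr rfl
        intro q hq
        congr 1
        have hq2 : q ∈ PZ H υ ∧ ¬ tt H q < ε₁ := by
          unfold pr at hq
          rw [mem_filter] at hq
          unfold PZ
          rw [mem_filter]
          exact ⟨⟨hq.1, hq.2.1, hq.2.2.2⟩, not_lt.2 (hε₁ζ.trans hq.2.2.1)⟩
        have h2 : q ∣ (fn G n).natAbs ↔ q ∣ N n := by
          rw [hN n q hq2.1, hOmG q hq2.2, hmemO G n hnJ q hq2.1]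
          exact Int.natCast_dvd.symm
        by_cases h3 : q ∣ N n
        · rw [if_pos h3, if_pos (h2.2 h3)]
        · rw [if_neg h3, if_neg (fun h4 => h3 (h2.1 h4))]
      rw [h1]; exact hnW
    obtain ⟨hne, hszn⟩ := hSz n hnI
    have halm := almost H (by omega) (τ / 4) υ lam S r hτυ hυ0 (by linarith) hlam hrS (fn G n).natAbs
      (Int.natAbs_ne_zero.2 hne) (hszn.trans (Real.rpow_le_rpow_of_exponent_le hH1.le hDS.le)) hWG (by
        intro q hq hqd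
        apply hnB
        rw [hBd, mem_filter]
        exact ⟨hnI, q, hq, Int.natCast_dvd.2 hqd⟩)
    refine ⟨hnp, ?_, halm.1, halm.2⟩
    intro p hp hpH hpd
    have h1 : (p : ℝ) < (H : ℝ) ^ ε₁ :=
      hpH.trans_lt (Real.rpow_lt_rpow_of_exponent_lt hH1 (by linarith))
    have hpH' : p ≤ H := by
      have h2 : (p : ℝ) ≤ (H : ℝ) ^ (1 : ℝ) := h1.le.trans (Real.rpow_le_rpow_of_exponent_le hH1.le hε₁β)
      rw [Real.rpow_one] at h2
      exact_mod_cast h2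
    have htt : tt H p < ε₁ := (tt_lt H p ε₁ (by omega) hp.pos).2 h1
    have hpZ : p ∈ PZ H (τ / 4) := by
      unfold PZ
      rw [mem_filter, mem_Icc]
      exact ⟨⟨hp.one_le, hpH'⟩, hp, htt.trans_le hε₁ζ⟩
    rw [fnL] at hpd
    rcases (Nat.prime_iff_prime_int.1 hp).dvd_or_dvd hpd with h2 | h2
    · exact hbig n hnJ p hp (hPZ υ p (hζυ' p hpZ)).2.2 h2
    · apply hsm p hpZ
      rw [hN n p (hζυ' p hpZ), hOmQ p htt, hmemO Q n hnJ p (hζυ' p hpZ)]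
      exact h2
  · have h1 : ((JL a b H).filter (fun n => 0 < WW H (τ / 4) υ lam (lam / υ) (N n))).card ≤ S'.card + B.card := by
      rw [hS']
      have := Finset.card_sdiff_add_card ((JL a b H).filter (fun n => 0 < WW H (τ / 4) υ lam (lam / υ) (N n))) B
      have h2 := Finset.card_le_card (Finset.subset_union_left (s₁ := (JL a b H).filter (fun n => 0 < WW H (τ / 4) υ lam (lam / υ) (N n))) (s₂ := B))
      omega
    have h2 : (((JL a b H).filter (fun n => 0 < WW H (τ / 4) υ lam (lam / υ) (N n))).card : ℝ) ≤ S'.card + B.card := by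
      exact_mod_cast h1
    have h3 : 0 ≤ c0 * (H * Vv) := by positivity
    linarith

end Pool.Agent.Zk41.P5
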