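import Pool.Agent.Zk41.P5.D
import Pool.Agent.Zk41.P4.Low
import Pool.Agent.Zk41.PY.C

/-!
Zk41/P5 (helper41): the hypotheses of the weighted sieve at prime arguments for an irreducible polynomial.
-/

set_option autoImplicit false

open Finset Filter Polynomial

namespace Pool.Agent.Zk41.P5

open Pool.Agent.Y677.RSZ (rt V ev_log)
open Pool.Agent.Zk41.PY (fn AdmP dvd_iff)
open Pool.Agent.Zk41.P4 (rt_le_deg eval_le no_root mer_irr sq_cnt bez)
open Pool.Agent.Y882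
open Pool.Agent.W23.DC
open Pool.Agent.K3h19.RV (Lam)
open Pool.Agent.K3h31.LP (pr_facts pr_sq)

/-- the polynomial `F (a X + b)` -/
noncomputable def Fc (F : ℤ[X]) (a : ℕ) (b : ℤ) : ℤ[X] := F.comp (Polynomial.C (a : ℤ) * X + Polynomial.C b)

lemma Fc_eval (F : ℤ[X]) (a : ℕ) (b x : ℤ) : (Fc F a b).eval x = F.eval ((a : ℤ) * x + b) := by
  unfold Fc
  rw [eval_comp]
  simp

lemma rt_Fc (F : ℤ[X]) (a : ℕ) (b : ℤ) {p : ℕ} (hp : p.Prime) (hpa : ¬ p ∣ a) :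
    rt (fun n => (Fc F a b).eval n) p = rt (fun n => F.eval n) p := by
  classical
  have hpp : Prime (p : ℤ) := Nat.prime_iff_prime_int.1 hp
  have hp0 : (0 : ℤ) < p := by exact_mod_cast hp.pos
  have hpaZ : ¬ (p : ℤ) ∣ (a : ℤ) := fun h => hpa (Int.natCast_dvd_natCast.1 h)
  obtain ⟨u, v, huv⟩ : IsCoprime (p : ℤ) (a : ℤ) := hpp.coprime_iff_not_dvd.2 hpaZ
  have hcls : ∀ x : ℤ, (p : ℤ) ∣ x - ((x % p).toNat : ℤ) := by
    intro x
    rw [Int.toNat_of_nonneg (Int.emod_nonneg _ hp0.ne')]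
    exact Int.dvd_self_sub_emod
  have hlt : ∀ x : ℤ, (x % p).toNat < p := by
    intro x
    have h1 := Int.emod_lt_of_pos x hp0
    have h2 := Int.emod_nonneg x hp0.ne'
    omega
  have hev : ∀ x y : ℤ, (p : ℤ) ∣ x - y → ((p : ℤ) ∣ F.eval x ↔ (p : ℤ) ∣ F.eval y) := by
    intro x y h
    exact dvd_iff_dvd_of_dvd_sub (h.trans (sub_dvd_eval_sub _ _ _))
  have huniq : ∀ (x : ℤ) (r : ℕ), r < p → (p : ℤ) ∣ x - r → (x % p).toNat = r := by
    intro x r hr h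
    have h1 : x % p = r := by
      have h2 : (x : ℤ) ≡ r [ZMOD p] := (Int.modEq_iff_dvd.2 (by
        have := dvd_neg.2 h
        rwa [neg_sub] at this))
      rw [h2.eq]
      exact Int.emod_eq_of_lt (by positivity) (by exact_mod_cast hr)
    rw [h1]
    simp
  unfold rt
  refine card_nbij' (fun r : ℕ => (((a : ℤ) * r + b) % p).toNat) (fun s : ℕ => ((v * ((s : ℤ) - b)) % p).toNat) ?_ ?_ ?_ ?_
  · intro r hr
    simp only [coe_filter, Set.mem_ofPred_eq, mem_range] at hr ⊢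
    refine ⟨hlt _, ?_⟩
    rw [← hev _ _ (hcls _), ← Fc_eval]
    exact hr.2
  · intro s hs
    simp only [coe_filter, Set.mem_ofPred_eq, mem_range] at hs ⊢
    refine ⟨hlt _, ?_⟩
    rw [Fc_eval, hev _ (s : ℤ)]
    · exact hs.2
    · have h1 := hcls (v * ((s : ℤ) - b))
      have e : (a : ℤ) * (((v * ((s : ℤ) - b)) % p).toNat : ℤ) + b - s =
          -(a * (v * ((s : ℤ) - b) - (((v * ((s : ℤ) - b)) % p).toNat : ℤ))) - (u * p) * (s - b) := by
        have : v * (a : ℤ) = 1 - u * p := by linarith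
        linear_combination ((s : ℤ) - b) * this
      rw [e]
      exact ((h1.mul_left _).neg_right).sub (Dvd.intro_left (u * (s - b)) (by ring))
  · intro r hr
    simp only [coe_filter, Set.mem_ofPred_eq, mem_range] at hr
    apply huniq _ _ hr.1
    have h1 := hcls ((a : ℤ) * r + b)
    have e : v * (((((a : ℤ) * r + b) % p).toNat : ℤ) - b) - r =
        -(v * (((a : ℤ) * r + b) - ((((a : ℤ) * r + b) % p).toNat : ℤ))) - (u * r) * p := by
      have : v * (a : ℤ) = 1 - u * p := by linarith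
      linear_combination (r : ℤ) * this
    rw [e]
    exact ((h1.mul_left _).neg_right).sub (Dvd.intro_left _ rfl)
  · intro s hs
    simp only [coe_filter, Set.mem_ofPred_eq, mem_range] at hs
    apply huniq _ _ hs.1
    have h1 := hcls (v * ((s : ℤ) - b))
    have e : (a : ℤ) * (((v * ((s : ℤ) - b)) % p).toNat : ℤ) + b - s =
        -(a * (v * ((s : ℤ) - b) - (((v * ((s : ℤ) - b)) % p).toNat : ℤ))) - (u * (s - b)) * p := by
      have : v * (a : ℤ) = 1 - u * p := by linarith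
      linear_combination ((s : ℤ) - b) * this
    rw [e]
    exact ((h1.mul_left _).neg_right).sub (Dvd.intro_left _ rfl)

lemma card_OmF (F : ℤ[X]) (a : ℕ) (b : ℤ) {p : ℕ} (hp : p.Prime) (hpa : ¬ p ∣ a) (hF0 : ¬ (p : ℤ) ∣ F.eval 0) :
    (OmL a b (Fc F a b) p).card = rt (fun n => F.eval n) p := by
  classical
  rw [← rt_Fc F a b hp hpa]
  unfold rt OmL
  congr 1
  apply filter_congr
  intro r _
  unfold fn
  constructor
  · exact fun h => h.2
  · intro h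
    refine ⟨?_, h⟩
    intro h2
    apply hF0
    simp only at h
    rw [Fc_eval] at h
    have h3 := sub_dvd_eval_sub ((a : ℤ) * r + b) 0 F
    rw [sub_zero] at h3
    have h4 := h2.trans h3
    exact (dvd_iff_dvd_of_dvd_sub h4).1 h

/-- the conditions on the polynomial -/
def GoodF (F : ℤ[X]) (A : ℕ) (H a : ℕ) (b : ℤ) (G : ℤ[X]) : Prop :=
  1 ≤ a ∧ (a : ℝ) ≤ Real.log H ^ A ∧ ((|b| : ℤ) : ℝ) ≤ Real.log H ^ A ∧ G = Fc F a b

theorem goodFM (F : ℤ[X]) (hF : F.Monic) (hirr : Irreducible F) (hg : 2 ≤ F.natDegree) (A : ℕ) (ε₁ υ η : ℝ)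
    (hε : 0 < ε₁) (hυ : υ ≤ 1) (hη : 0 < η) :
    ∃ H₀ : ℕ, ∀ H : ℕ, H₀ ≤ H → ∀ (a : ℕ) (b : ℤ) (G : ℤ[X]), GoodF F A H a b G →
      Mer (pr H ε₁ υ) (tt H) (fun p => ((OmL a b G p).card : ℝ) * wL a p) ε₁ υ η := by
  classical
  obtain ⟨Y0, h0⟩ := mer_irr F hF hirr ε₁ υ (η / 2) hε hυ (by linarith)
  obtain ⟨g, hgd⟩ : ∃ g : ℕ, g = F.natDegree := ⟨_, rfl⟩
  have v1 := ev_log A 1 (ε₁ / 2) (by linarith)
  have hcast : Tendsto (fun N : ℕ => (N : ℝ)) atTop atTop := tendsto_natCast_atTop_atTop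
  have v2 : ∀ᶠ H : ℕ in atTop, ((F.eval 0).natAbs : ℝ) + 3 + 8 * g / η ≤ (H : ℝ) ^ ε₁ :=
    ((tendsto_rpow_atTop hε).comp hcast).eventually_ge_atTop _
  obtain ⟨Y1, hY1⟩ := eventually_atTop.1 (v1.and (v2.and (eventually_ge_atTop 3)))
  refine ⟨Y0 + Y1 + 2, fun H hH a b G hG => ?_⟩
  obtain ⟨ha, haA, hbA, rfl⟩ := hG
  obtain ⟨w1, w2, w3⟩ := hY1 H (by omega)
  rw [one_mul] at w1
  have hHr : (3 : ℝ) ≤ H := by exact_mod_cast w3
  have hH0 : (0 : ℝ) < H := by linarith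
  have hH1 : (1 : ℝ) < H := by linarith
  have hF0 : F.eval 0 ≠ 0 := no_root F hF hirr hg 0
  have hgη : 0 ≤ 8 * (g : ℝ) / η := by positivity
  have hn0 : (0 : ℝ) ≤ ((F.eval 0).natAbs : ℝ) := Nat.cast_nonneg _
  intro u v hu huv hv
  have h1 := h0 H (by omega) u v hu huv hv
  have hcard : ∀ p ∈ (pr H ε₁ υ).filter (fun p => u ≤ tt H p ∧ tt H p < v), p.Prime ∧ (H : ℝ) ^ u ≤ p ∧
      (3 : ℝ) ≤ p ∧ ((OmL a b (Fc F a b) p).card : ℝ) * wL a p = (rt (fun n => F.eval n) p : ℝ) / ((p : ℝ) - 1) := by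
    intro p hp
    rw [mem_filter] at hp
    obtain ⟨g1, g2, g3, g4⟩ := pr_facts (by omega) hp.1
    have g5 : ¬ p ∣ a := by
      intro h
      have h2 := Nat.le_of_dvd (by omega) h
      have h3 : (p : ℝ) ≤ a := by exact_mod_cast h2
      have h4 : (H : ℝ) ^ (ε₁ / 2) < (H : ℝ) ^ ε₁ := Real.rpow_lt_rpow_of_exponent_lt hH1 (by linarith)
      linarith
    have g6 : ¬ (p : ℤ) ∣ F.eval 0 := by
      intro h
      have h2 := Nat.le_of_dvd (Int.natAbs_pos.2 hF0) (Int.natCast_dvd.1 h)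
      have h3 : (p : ℝ) ≤ (F.eval 0).natAbs := by exact_mod_cast h2
      linarith
    refine ⟨g1, ?_, by linarith, ?_⟩
    · by_contra hlt
      push Not at hlt
      have := (tt_lt H p u (by omega) g1.pos).2 hlt
      linarith [hp.2.1]
    · rw [card_OmF F a b g1 g5 g6]
      unfold wL
      rw [if_neg g5]
      ring
  have hsum : ∑ p ∈ (pr H ε₁ υ).filter (fun p => u ≤ tt H p ∧ tt H p < v), ((OmL a b (Fc F a b) p).card : ℝ) * wL a p =
      ∑ p ∈ (pr H ε₁ υ).filter (fun p => u ≤ tt H p ∧ tt H p < v), (rt (fun n => F.eval n) p : ℝ) / ((p : ℝ) - 1) :=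
    sum_congr rfl fun p hp => (hcard p hp).2.2.2
  rw [hsum]
  have hdiff : ∀ p ∈ (pr H ε₁ υ).filter (fun p => u ≤ tt H p ∧ tt H p < v),
      0 ≤ (rt (fun n => F.eval n) p : ℝ) / ((p : ℝ) - 1) - (rt (fun n => F.eval n) p : ℝ) / p ∧
      (rt (fun n => F.eval n) p : ℝ) / ((p : ℝ) - 1) - (rt (fun n => F.eval n) p : ℝ) / p ≤ 2 * g * (1 / (p : ℝ) ^ 2) := by
    intro p hp
    obtain ⟨g1, g2, g3, g4⟩ := hcard p hp
    have g5 : (rt (fun n => F.eval n) p : ℝ) ≤ g := by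
      rw [hgd]
      exact_mod_cast rt_le_deg F hF p g1
    have e1 : (p : ℝ) - 1 ≠ 0 := by linarith
    have e2 : (p : ℝ) ≠ 0 := by linarith
    have e : (rt (fun n => F.eval n) p : ℝ) / ((p : ℝ) - 1) - (rt (fun n => F.eval n) p : ℝ) / p =
        (rt (fun n => F.eval n) p : ℝ) / ((p - 1) * p) := by
      field_simp
      ring
    rw [e]
    have e3 : (0 : ℝ) < (p - 1) * p := by nlinarith
    constructor
    · positivity
    · rw [mul_one_div, div_le_div_iff₀ e3 (by positivity)]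
      have e4 : (p : ℝ) ^ 2 ≤ 2 * ((p - 1) * p) := by nlinarith
      have e5 : (0 : ℝ) ≤ g := Nat.cast_nonneg g
      calc (rt (fun n => F.eval n) p : ℝ) * (p : ℝ) ^ 2 ≤ g * (2 * ((p - 1) * p)) :=
            mul_le_mul g5 e4 (by positivity) e5
        _ = 2 * g * ((p - 1) * p) := by ring
  have hs := pr_sq (Y := H) (by omega) ε₁ υ (by linarith)
  have hD0 : 0 ≤ ∑ p ∈ (pr H ε₁ υ).filter (fun p => u ≤ tt H p ∧ tt H p < v),
      ((rt (fun n => F.eval n) p : ℝ) / ((p : ℝ) - 1) - (rt (fun n => F.eval n) p : ℝ) / p) :=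
    sum_nonneg fun p hp => (hdiff p hp).1
  have hD1 : ∑ p ∈ (pr H ε₁ υ).filter (fun p => u ≤ tt H p ∧ tt H p < v),
      ((rt (fun n => F.eval n) p : ℝ) / ((p : ℝ) - 1) - (rt (fun n => F.eval n) p : ℝ) / p) ≤ η / 2 := by
    calc _ ≤ ∑ p ∈ (pr H ε₁ υ).filter (fun p => u ≤ tt H p ∧ tt H p < v), 2 * g * (1 / (p : ℝ) ^ 2) :=
          sum_le_sum fun p hp => (hdiff p hp).2
      _ ≤ ∑ p ∈ pr H ε₁ υ, 2 * g * (1 / (p : ℝ) ^ 2) :=
          sum_le_sum_of_subset_of_nonneg (filter_subset _ _) fun p _ _ => by positivity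
      _ = 2 * g * ∑ p ∈ pr H ε₁ υ, 1 / (p : ℝ) ^ 2 := by rw [mul_sum]
      _ ≤ 2 * g * (2 / (H : ℝ) ^ ε₁) := mul_le_mul_of_nonneg_left hs (by positivity)
      _ ≤ η / 2 := by
          rw [mul_div_assoc', div_le_iff₀ (by positivity)]
          have h3 : 8 * g / η ≤ (H : ℝ) ^ ε₁ := by linarith
          rw [div_le_iff₀ hη] at h3
          linarith
  rw [sum_sub_distrib] at hD0 hD1
  rw [abs_le] at h1 ⊢
  constructor <;> linarith [h1.1, h1.2]

theorem goodFS (F : ℤ[X]) (hF : F.Monic) (hirr : Irreducible F) (A : ℕ) (ζ : ℝ) (hζ : 0 < ζ) :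
    ∃ H₀ : ℕ, ∀ H : ℕ, H₀ ≤ H → ∀ (a : ℕ) (b : ℤ) (G : ℤ[X]),
    GoodF F A H a b G → ∀ q : ℕ, q.Prime → (H : ℝ) ^ ζ ≤ q →
        (((Ioc H (H + H)).filter (fun n : ℕ => ((q ^ 2 : ℕ) : ℤ) ∣ fn G n)).card : ℝ) ≤
          F.natDegree * (H * (1 / (q : ℝ) ^ 2) + 1) := by
  classical
  obtain ⟨c, U, W, hc0, hUW⟩ := bez F hF hirr
  have v1 := ev_log A 1 (ζ / 2) (by linarith)
  have hcast : Tendsto (fun N : ℕ => (N : ℝ)) atTop atTop := tendsto_natCast_atTop_atTop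
  have v2 : ∀ᶠ H : ℕ in atTop, (c.natAbs : ℝ) + 1 ≤ (H : ℝ) ^ ζ :=
    ((tendsto_rpow_atTop hζ).comp hcast).eventually_ge_atTop _
  obtain ⟨Y1, hY1⟩ := eventually_atTop.1 (v1.and v2)
  refine ⟨Y1 + 2, fun H hH a b G hG q hq hqH => ?_⟩
  obtain ⟨w1, w2⟩ := hY1 H (by omega)
  rw [one_mul] at w1
  obtain ⟨ha, haA, hbA, rfl⟩ := hG
  have hH1 : (1 : ℝ) < H := by exact_mod_cast (by omega : 1 < H)
  have hqa : ¬ q ∣ a := by
    intro h
    have h2 := Nat.le_of_dvd (by omega) h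
    have h3 : (q : ℝ) ≤ a := by exact_mod_cast h2
    have h4 : (H : ℝ) ^ (ζ / 2) < (H : ℝ) ^ ζ := Real.rpow_lt_rpow_of_exponent_lt hH1 (by linarith)
    linarith
  have hqc : ¬ (q : ℤ) ∣ c := by
    intro h
    have h2 := Nat.le_of_dvd (Int.natAbs_pos.2 hc0) (Int.natCast_dvd.1 h)
    have h3 : (q : ℝ) ≤ c.natAbs := by exact_mod_cast h2
    linarith
  have hqq := Nat.prime_iff_prime_int.1 hq
  have hqac : ¬ (q : ℤ) ∣ (a : ℤ) * c := by
    intro h
    rcases hqq.dvd_or_dvd h with h1 | h1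
    · exact hqa (Int.natCast_dvd_natCast.1 h1)
    · exact hqc h1
  have hB : (Polynomial.C (a : ℤ) * Fc U a b) * Fc F a b + Fc W a b * derivative (Fc F a b) = Polynomial.C ((a : ℤ) * c) := by
    unfold Fc
    rw [derivative_comp]
    have e1 : derivative (Polynomial.C (a : ℤ) * X + Polynomial.C b) = Polynomial.C (a : ℤ) := by simp
    rw [e1]
    have e2 : (U * F + W * derivative F).comp (Polynomial.C (a : ℤ) * X + Polynomial.C b) = Polynomial.C c := by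
      rw [hUW, C_comp]
    rw [add_comp, mul_comp, mul_comp] at e2
    rw [map_mul, ← e2]
    ring
  have h1 := sq_cnt (Fc F a b) ((a : ℤ) * c) _ _ hB q hq hqac F.natDegree
    (by rw [rt_Fc F a b hq hqa]; exact rt_le_deg F hF q hq) (H : ℤ) H
  refine le_trans ?_ h1
  have h2 : ((Ioc H (H + H)).filter (fun n : ℕ => ((q ^ 2 : ℕ) : ℤ) ∣ fn (Fc F a b) n)).card ≤
      ((Icc 1 H).filter (fun j : ℕ => ((q ^ 2 : ℕ) : ℤ) ∣ (Fc F a b).eval ((H : ℤ) + j))).card := by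
    apply card_le_card_of_injOn (fun n => n - H)
    · intro n hn
      rw [mem_coe, mem_filter, mem_Ioc] at hn
      rw [mem_coe, mem_filter, mem_Icc]
      obtain ⟨⟨hn1, hn2⟩, hn3⟩ := hn
      refine ⟨⟨by show 1 ≤ n - H; omega, by show n - H ≤ H; omega⟩, ?_⟩
      have e : (H : ℤ) + ((n - H : ℕ) : ℤ) = n := by omega
      rw [e]
      exact hn3
    · intro n hn m hm h
      rw [mem_coe, mem_filter, mem_Ioc] at hn hm
      simp only at h
      omega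
  exact_mod_cast h2

theorem goodFZ (F : ℤ[X]) (hF : F.Monic) (hirr : Irreducible F) (hg : 2 ≤ F.natDegree) (A : ℕ) (D : ℝ)
    (hD : (F.natDegree : ℝ) < D) : ∃ H₀ : ℕ, ∀ H : ℕ, H₀ ≤ H → ∀ (a : ℕ) (b : ℤ) (G : ℤ[X]),
    GoodF F A H a b G → ∀ n ∈ Ioc H (H + H), fn G n ≠ 0 ∧ ((fn G n).natAbs : ℝ) ≤ (H : ℝ) ^ D := by
  obtain ⟨g, hgd⟩ : ∃ g : ℕ, g = F.natDegree := ⟨_, rfl⟩
  obtain ⟨A', hA'⟩ : ∃ A' : ℕ, A' = ∑ i ∈ range (F.natDegree + 1), (F.coeff i).natAbs := ⟨_, rfl⟩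
  rw [← hgd] at hD
  obtain ⟨e, he⟩ : ∃ e : ℝ, e = (D - g) / (2 * (g + 1)) := ⟨_, rfl⟩
  have he0 : 0 < e := by rw [he]; apply div_pos <;> [linarith; positivity]
  have v1 := ev_log A 4 e he0
  have hcast : Tendsto (fun N : ℕ => (N : ℝ)) atTop atTop := tendsto_natCast_atTop_atTop
  have v2 : ∀ᶠ H : ℕ in atTop, (A' : ℝ) ≤ (H : ℝ) ^ ((D - g) / 2) :=
    ((tendsto_rpow_atTop (by linarith)).comp hcast).eventually_ge_atTop _
  obtain ⟨Y1, hY1⟩ := eventually_atTop.1 (v1.and v2)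
  refine ⟨Y1 + 2, fun H hH a b G hG n hn => ?_⟩
  obtain ⟨w1, w2⟩ := hY1 H (by omega)
  obtain ⟨ha, haA, hbA, rfl⟩ := hG
  have hH1 : (1 : ℝ) < H := by exact_mod_cast (by omega : 1 < H)
  have hH0 : (0 : ℝ) < H := by linarith
  have haR : (1 : ℝ) ≤ a := by exact_mod_cast ha
  unfold fn
  rw [Fc_eval]
  refine ⟨no_root F hF hirr hg _, ?_⟩
  rw [mem_Ioc] at hn
  obtain ⟨N, hN⟩ : ∃ N : ℕ, N = a * (2 * H) + b.natAbs := ⟨_, rfl⟩
  have hN1 : 1 ≤ N := by
    rw [hN]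
    have : 1 ≤ a * (2 * H) := Nat.mul_pos (by omega) (by omega)
    omega
  have hx : |(a : ℤ) * n + b| ≤ N := by
    refine (abs_add_le _ _).trans ?_
    rw [hN]
    push_cast
    apply add_le_add
    · rw [abs_of_nonneg (by positivity)]
      have : (n : ℤ) ≤ 2 * H := by omega
      exact mul_le_mul_of_nonneg_left this (by positivity)
    · exact le_rfl
  have h1 := eval_le F N hN1 _ hx
  rw [← hA', ← hgd] at h1
  have hNle : (N : ℝ) ≤ (H : ℝ) ^ e * H := by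
    have hb : ((b.natAbs : ℕ) : ℝ) = |(b : ℝ)| := by
      have : ((b.natAbs : ℕ) : ℝ) = ((|b| : ℤ) : ℝ) := by
        rw [← Int.natCast_natAbs]; simp
      rw [this]
      push_cast
      rfl
    rw [hN, Nat.cast_add, hb]
    push_cast
    have h2 : |(b : ℝ)| ≤ Real.log H ^ A * H := by
      push_cast at hbA
      calc |(b : ℝ)| ≤ Real.log H ^ A * 1 := by linarith
        _ ≤ _ := mul_le_mul_of_nonneg_left hH1.le (by linarith)
    have h3 : (a : ℝ) * (2 * H) ≤ Real.log H ^ A * (2 * H) := mul_le_mul_of_nonneg_right haA (by linarith)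
    have h4 : 4 * Real.log H ^ A * H ≤ (H : ℝ) ^ e * H := mul_le_mul_of_nonneg_right w1 hH0.le
    have h5 : 0 ≤ Real.log H ^ A * H := by
      have : 0 ≤ Real.log H ^ A := by linarith
      positivity
    linarith
  calc ((F.eval ((a : ℤ) * n + b)).natAbs : ℝ) ≤ A' * (N : ℝ) ^ g := by exact_mod_cast h1
    _ ≤ (H : ℝ) ^ ((D - g) / 2) * ((H : ℝ) ^ e * H) ^ g := by
        apply mul_le_mul w2 (pow_le_pow_left₀ (Nat.cast_nonneg _) hNle g) (by positivity) (by positivity)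
    _ = (H : ℝ) ^ ((D - g) / 2 + (e + 1) * g) := by
        have : (H : ℝ) ^ e * H = (H : ℝ) ^ (e + 1) := by rw [Real.rpow_add hH0, Real.rpow_one]
        rw [this, ← Real.rpow_natCast ((H : ℝ) ^ (e + 1)) g, ← Real.rpow_mul hH0.le, ← Real.rpow_add hH0]
    _ ≤ (H : ℝ) ^ D := by
        apply Real.rpow_le_rpow_of_exponent_le hH1.le
        have h6 : e * g ≤ (D - g) / 2 := by
          rw [he, div_mul_eq_mul_div, div_le_div_iff₀ (by positivity) (by norm_num)]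
          have : 0 ≤ D - g := by linarith
          nlinarith [mul_nonneg this (Nat.cast_nonneg (α := ℝ) g)]
        linarith

end Pool.Agent.Zk41.P5
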