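import Pool.Agent.Zk41.P5.G
import Pool.Agent.Zk41.P4.Sz

/-!
Zk41/P5 (helper41): primes at which an irreducible polynomial is an almost prime.
-/

set_option autoImplicit false

open Finset Filter Polynomial

namespace Pool.Agent.Zk41.P5

open Pool.Agent.Y677.RSZ (rt V ev_log)
open Pool.Agent.Zk41.PY (fn AdmP dvd_iff pol)
open Pool.Agent.Zk41.P4 (rt_le_deg eval_le no_root mer_irr sq_cnt bez coeff_shift)
open Pool.Agent.K3h19.RV (Lam)

/-- the coefficients of a product -/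
lemma coeff_mul_le (P Q : ℤ[X]) (M₁ M₂ : ℤ) (d : ℕ) (h0 : 0 ≤ M₁) (h1 : ∀ i, |P.coeff i| ≤ M₁) (h2 : ∀ i, |Q.coeff i| ≤ M₂)
    (hd : (P * Q).natDegree ≤ d) (n : ℕ) : |(P * Q).coeff n| ≤ (d + 1) * (M₁ * M₂) := by
  have hM₂ : 0 ≤ M₂ := (abs_nonneg _).trans (h2 0)
  by_cases hn : n ≤ d
  · rw [coeff_mul]
    refine (abs_sum_le_sum_abs _ _).trans ?_
    calc ∑ x ∈ antidiagonal n, |P.coeff x.1 * Q.coeff x.2| ≤ ∑ x ∈ antidiagonal n, M₁ * M₂ := by
          apply sum_le_sum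
          intro x _
          rw [abs_mul]
          exact mul_le_mul (h1 _) (h2 _) (abs_nonneg _) h0
      _ = (n + 1) * (M₁ * M₂) := by
          rw [sum_const, Finset.Nat.card_antidiagonal, nsmul_eq_mul]
          push_cast
          ring
      _ ≤ _ := by
          apply mul_le_mul_of_nonneg_right _ (mul_nonneg h0 hM₂)
          have : (n : ℤ) ≤ d := by exact_mod_cast hn
          linarith
  · rw [coeff_eq_zero_of_natDegree_lt (by omega), abs_zero]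
    positivity

/-- the coefficients of `F (a X + b)` -/
lemma coeff_Fc (F : ℤ[X]) : ∃ A : ℕ, ∀ (H a : ℕ) (b : ℤ) (i : ℕ), 1 ≤ H → a ≤ H → |b| ≤ H →
    |(Fc F a b).coeff i| ≤ A * (H : ℤ) ^ (2 * F.natDegree) := by
  obtain ⟨A, hA⟩ := coeff_shift F
  refine ⟨A, fun H a b i hH ha hb => ?_⟩
  have hH1 : (1 : ℤ) ≤ H := by exact_mod_cast hH
  have e : Fc F a b = (F.comp (X + Polynomial.C b)).comp (Polynomial.C (a : ℤ) * X) := by
    unfold Fc
    rw [comp_assoc]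
    simp
  rw [e, comp_C_mul_X_coeff, abs_mul]
  by_cases hi : i ≤ F.natDegree
  · have h1 := hA H b i hH hb
    have h2 : |(F.comp (X + Polynomial.C b)).coeff i| ≤ A * (H : ℤ) ^ F.natDegree := by
      rw [Int.abs_eq_natAbs]
      exact_mod_cast h1
    have h3 : |(a : ℤ) ^ i| ≤ (H : ℤ) ^ F.natDegree := by
      rw [abs_of_nonneg (by positivity)]
      calc (a : ℤ) ^ i ≤ (H : ℤ) ^ i := pow_le_pow_left₀ (by positivity) (by exact_mod_cast ha) i
        _ ≤ _ := pow_le_pow_right₀ hH1 hi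
    calc _ ≤ (A * (H : ℤ) ^ F.natDegree) * (H : ℤ) ^ F.natDegree := mul_le_mul h2 h3 (abs_nonneg _) (by positivity)
      _ = _ := by rw [two_mul, pow_add]; ring
  · have h4 : (F.comp (X + Polynomial.C b)).natDegree ≤ F.natDegree := by
      refine natDegree_comp_le.trans ?_
      rw [natDegree_X_add_C, mul_one]
    rw [coeff_eq_zero_of_natDegree_lt (by omega), abs_zero, zero_mul]
    positivity

open Classical in
/-- the good points -/
noncomputable def ptsF (F : ℤ[X]) (r : ℕ) (ζ δ : ℝ) (a : ℕ) (b : ℤ) (P : ℤ[X]) (H : ℕ) : Finset ℕ :=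
  (Ioc H (H + H)).filter fun n : ℕ => ((a : ℤ) * (n : ℤ) + b).natAbs.Prime ∧
    (F.eval ((a : ℤ) * (n : ℤ) + b)).natAbs.primeFactorsList.length ≤ r ∧
    (∀ p : ℕ, p.Prime → (p : ℤ) ∣ F.eval ((a : ℤ) * (n : ℤ) + b) → (H : ℝ) ^ ζ ≤ p) ∧
    ∀ p : ℕ, p.Prime → (p : ℤ) ∣ P.eval (n : ℤ) → (H : ℝ) ^ δ < p

/-- the conditions -/
def SmF (F : ℤ[X]) (A C g : ℕ) (a : ℕ) (b : ℤ) (P : ℤ[X]) (H : ℕ) : Prop :=
  1 ≤ a ∧ (a : ℝ) ≤ Real.log H ^ A ∧ |(b : ℝ)| ≤ Real.log H ^ A ∧ P.natDegree ≤ g ∧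
    (∀ i, |P.coeff i| ≤ (H : ℤ) ^ C) ∧ (∀ n ∈ Ioc H (H + H), P.eval (n : ℤ) ≠ 0) ∧
    AdmP (L1 a b * (Fc F a b * P))

open Classical in
theorem apF (F : ℤ[X]) (hF : F.Monic) (hirr : Irreducible F) (hg : 2 ≤ F.natDegree) (r A C g : ℕ) (hr : 1 ≤ r)
    (hΛ : 2 * (F.natDegree : ℝ) < Lam r) :
    ∃ δ c : ℝ, 0 < δ ∧ 0 < c ∧
    (∃ H₀ : ℕ, ∀ H : ℕ, H₀ ≤ H → ∀ (a : ℕ) (b : ℤ) (P : ℤ[X]), SmF F A C g a b P H →
      c * (H * V (fn (L1 a b * (Fc F a b * P))) 1 H) ≤ (ptsF F r (F.natDegree / (4 * Lam r)) δ a b P H).card) ∧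
    ∀ (m : ℕ) (ε : ℝ), 0 < ε → ∃ B H₀ : ℕ, ∀ H : ℕ, H₀ ≤ H → ∀ (a : ℕ) (b : ℤ) (P : ℤ[X]), SmF F A C g a b P H →
      ∀ S ⊆ ptsF F r (F.natDegree / (4 * Lam r)) δ a b P H,
        ε * (ptsF F r (F.natDegree / (4 * Lam r)) δ a b P H).card ≤ S.card →
        ∃ x d : ℕ, 1 ≤ d ∧ (d : ℝ) ≤ Real.log H ^ B ∧ ∀ i < m, x + i * d ∈ S := by
  obtain ⟨gF, hgF⟩ : ∃ gF : ℕ, gF = F.natDegree := ⟨_, rfl⟩
  rw [← hgF] at hΛ ⊢
  have hgF2 : 2 ≤ gF := by rw [hgF]; exact hg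
  have hgR : (2 : ℝ) ≤ gF := by exact_mod_cast hgF2
  obtain ⟨D, hD⟩ : ∃ D : ℝ, D = (gF + Lam r / 2) / 2 := ⟨_, rfl⟩
  have hD1 : (gF : ℝ) < D := by rw [hD]; linarith
  have hD2 : 2 * D < Lam r := by rw [hD]; linarith
  have hL0 : 0 < Lam r := by linarith
  obtain ⟨δ₀, ζ, c, hδ₀, hζ, hc, H₀, h⟩ := low5 (gF + g) r hr D (by linarith) hD2 A gF (by linarith) (GoodF F A)
    (fun ε₁ υ η h1 h2 h3 => goodFM F hF hirr hg A ε₁ υ η h1 h2 h3)
    (fun ζ hζ => by rw [hgF]; exact goodFS F hF hirr A ζ hζ) (goodFZ F hF hirr hg A D (by rw [← hgF]; exact hD1))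
  obtain ⟨δ, hδd⟩ : ∃ δ : ℝ, δ = min δ₀ (min (gF / (8 * Lam r)) (1 / 2)) := ⟨_, rfl⟩
  have hδ : 0 < δ := by rw [hδd]; exact lt_min hδ₀ (lt_min (by positivity) (by norm_num))
  have hδ1 : δ ≤ δ₀ := by rw [hδd]; exact min_le_left _ _
  have hδ2 : δ < gF / (4 * Lam r) := by
    have h1 : δ ≤ gF / (8 * Lam r) := by rw [hδd]; exact (min_le_right _ _).trans (min_le_left _ _)
    refine h1.trans_lt ?_
    rw [div_lt_div_iff₀ (by positivity) (by positivity)]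
    nlinarith [mul_pos (show (0 : ℝ) < gF by linarith) hL0]
  have hδ3 : δ ≤ 1 / 2 := by rw [hδd]; exact (min_le_right _ _).trans (min_le_right _ _)
  have hdegF : ∀ (a : ℕ) (b : ℤ), (Fc F a b).natDegree ≤ gF := by
    intro a b
    unfold Fc
    refine natDegree_comp_le.trans ?_
    rw [hgF]
    calc F.natDegree * (Polynomial.C (a : ℤ) * X + Polynomial.C b).natDegree ≤ F.natDegree * 1 :=
          Nat.mul_le_mul_left _ natDegree_linear_le
      _ = _ := mul_one _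
  have hcnt : ∃ H₀ : ℕ, ∀ H : ℕ, H₀ ≤ H → ∀ (a : ℕ) (b : ℤ) (P : ℤ[X]), SmF F A C g a b P H →
      c * (H * V (fn (L1 a b * (Fc F a b * P))) 1 H) ≤ (ptsF F r (gF / (4 * Lam r)) δ a b P H).card := by
    refine ⟨H₀ + 2, fun H hH a b P hS => ?_⟩
    obtain ⟨s1, s2, s3, s4, s5, s6, s7⟩ := hS
    have hH1 : (1 : ℝ) < H := by exact_mod_cast (by omega : 1 < H)
    have hb : ((|b| : ℤ) : ℝ) ≤ Real.log H ^ A := by push_cast; exact s3
    obtain ⟨S, hSs, hSp, hSc⟩ := h H (by omega) a b (Fc F a b) (Fc F a b * P) ⟨s1, s2, hb, rfl⟩ s1 s2 hb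
      (dvd_mul_right _ _) s7 (natDegree_mul_le.trans (Nat.add_le_add (hdegF a b) s4))
    refine hSc.trans ?_
    have hsub : S ⊆ ptsF F r (gF / (4 * Lam r)) δ a b P H := by
      intro n hn
      obtain ⟨p1, p2, p3, p4⟩ := hSp n hn
      unfold ptsF
      rw [mem_filter]
      unfold fn at p3 p4
      rw [Fc_eval] at p3 p4
      refine ⟨hSs hn, p1, p3, ?_, ?_⟩
      · intro p hp hpd
        refine le_trans ?_ (p4 p hp (Int.natCast_dvd.1 hpd))
        apply Real.rpow_le_rpow_of_exponent_le hH1.le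
        refine le_trans ?_ hζ
        exact div_le_div_of_nonneg_right hD1.le (by positivity)
      · intro p hp hpd
        by_contra hcon
        push Not at hcon
        apply p2 p hp (hcon.trans (Real.rpow_le_rpow_of_exponent_le hH1.le hδ1))
        rw [fnL]
        unfold fn
        rw [eval_mul]
        exact (hpd.mul_left _).mul_left _
    exact_mod_cast card_le_card hsub
  refine ⟨δ, c, hδ, hc, hcnt, fun m ε hε => ?_⟩
  obtain ⟨H₂, h2⟩ := hcnt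
  obtain ⟨AF, hAF⟩ := coeff_Fc F
  obtain ⟨C', hC'⟩ : ∃ C' : ℕ, C' = C + 2 * gF + 5 := ⟨_, rfl⟩
  obtain ⟨B, H₁, h1⟩ := pol (1 + (gF + g)) m C' δ (ε * c) hδ (by positivity)
  have v1 := ev_log A 2 1 one_pos
  have v2 : ∀ᶠ H : ℕ in atTop, (4 : ℝ) ≤ (H : ℝ) ^ (1 / 2 : ℝ) :=
    ((tendsto_rpow_atTop (by norm_num)).comp tendsto_natCast_atTop_atTop).eventually_ge_atTop _
  obtain ⟨Y1, hY1⟩ := eventually_atTop.1 (v1.and v2)
  refine ⟨B, H₂ + H₁ + Y1 + AF + (gF + g + 3) + 2, fun H hH a b P hSm S hS hSc => ?_⟩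
  have hcntH := h2 H (by omega) a b P hSm
  obtain ⟨s1, s2, s3, s4, s5, s6, s7⟩ := hSm
  obtain ⟨w1', w2⟩ := hY1 H (by omega)
  rw [Real.rpow_one] at w1'
  have hH1 : (1 : ℝ) < H := by exact_mod_cast (by omega : 1 < H)
  have hH0 : (0 : ℝ) < H := by linarith
  have w1 : Real.log H ^ A ≤ H := by
    have : 0 < Real.log H := Real.log_pos hH1
    have : 0 < Real.log H ^ A := by positivity
    linarith
  have hHN : gF + g + 3 ≤ H := by omega
  have hHZ : (1 : ℤ) ≤ H := by exact_mod_cast (by omega : 1 ≤ H)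
  have haH : a ≤ H := by
    have : (a : ℝ) ≤ H := s2.trans w1
    exact_mod_cast this
  have hbH : |b| ≤ (H : ℤ) := by
    have : |(b : ℝ)| ≤ H := s3.trans w1
    exact_mod_cast this
  have hdeg1 : (L1 a b).natDegree ≤ 1 := by unfold L1; exact natDegree_linear_le
  have hdeg2 : (Fc F a b * P).natDegree ≤ gF + g := natDegree_mul_le.trans (Nat.add_le_add (hdegF a b) s4)
  have hdeg3 : (L1 a b * (Fc F a b * P)).natDegree ≤ 1 + (gF + g) := natDegree_mul_le.trans (Nat.add_le_add hdeg1 hdeg2)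
  have hcL : ∀ i, |(L1 a b).coeff i| ≤ (H : ℤ) := by
    intro i
    unfold L1
    rw [coeff_add, coeff_C_mul, coeff_X, coeff_C]
    rcases i with _ | _ | i
    · simp; exact hbH
    · simp; exact_mod_cast haH
    · simp
  have hc2 : ∀ i, |(Fc F a b * P).coeff i| ≤ ((gF + g : ℕ) + 1 : ℤ) * ((AF * (H : ℤ) ^ (2 * gF)) * (H : ℤ) ^ C) := by
    intro i
    exact coeff_mul_le (Fc F a b) P _ _ (gF + g) (by positivity) (fun i => by
      rw [hgF]; exact hAF H a b i (by omega) haH hbH) s5 hdeg2 i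
  have hc3 : ∀ i, |(L1 a b * (Fc F a b * P)).coeff i| ≤ (H : ℤ) ^ C' := by
    intro i
    refine (coeff_mul_le (L1 a b) (Fc F a b * P) _ _ (1 + (gF + g)) (by positivity) hcL hc2 hdeg3 i).trans ?_
    have g1 : ((1 + (gF + g) : ℕ) : ℤ) + 1 ≤ H := by exact_mod_cast (by omega : 1 + (gF + g) + 1 ≤ H)
    have g2 : ((gF + g : ℕ) : ℤ) + 1 ≤ H := by exact_mod_cast (by omega : (gF + g) + 1 ≤ H)
    have g3 : (AF : ℤ) ≤ H := by exact_mod_cast (by omega : AF ≤ H)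
    calc (((1 + (gF + g) : ℕ) : ℤ) + 1) * ((H : ℤ) * (((gF + g : ℕ) + 1 : ℤ) * ((AF * (H : ℤ) ^ (2 * gF)) * (H : ℤ) ^ C))) ≤
        H * ((H : ℤ) * (H * ((H * (H : ℤ) ^ (2 * gF)) * (H : ℤ) ^ C))) := by gcongr
      _ = (H : ℤ) ^ (C + 2 * gF + 4) := by ring
      _ ≤ (H : ℤ) ^ C' := pow_le_pow_right₀ hHZ (by omega)
  apply h1 H (by omega) (L1 a b * (Fc F a b * P)) H s7 hdeg3 hc3 (Nat.le_self_pow (by omega) H) ?_ S ?_ ?_ ?_
  · intro n hn
    rw [fnL]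
    have hn1 := (mem_Ioc.1 hn).1
    refine mul_ne_zero ?_ ?_
    · have h3 : (H : ℤ) < n := by exact_mod_cast hn1
      have h4 := (abs_le.1 hbH).1
      have h5 : (n : ℤ) ≤ a * n := by
        have : (1 : ℤ) ≤ a := by exact_mod_cast s1
        nlinarith
      have : 0 < (a : ℤ) * n + b := by linarith
      exact this.ne'
    · unfold fn
      rw [eval_mul, Fc_eval]
      exact mul_ne_zero (no_root F hF hirr hg _) (s6 n hn)
  · intro n hn
    have := hS hn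
    unfold ptsF at this
    exact (mem_filter.1 this).1
  · intro n hn p hp hpH hpd
    have := hS hn
    unfold ptsF at this
    rw [mem_filter] at this
    obtain ⟨hnI, t1, t2, t3, t4⟩ := this
    rw [fnL] at hpd
    unfold fn at hpd
    rw [eval_mul, Fc_eval] at hpd
    have hpp := Nat.prime_iff_prime_int.1 hp
    rcases hpp.dvd_or_dvd hpd with h3 | h3
    · have h4 : p ∣ ((a : ℤ) * n + b).natAbs := Int.natCast_dvd.1 h3
      have h5 := (Nat.prime_dvd_prime_iff_eq hp t1).1 h4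
      have h6 : ((p : ℕ) : ℝ) = |(a : ℝ) * n + b| := by
        rw [h5]
        have : ((((a : ℤ) * n + b).natAbs : ℕ) : ℝ) = (|(a : ℤ) * n + b| : ℤ) := by
          rw [← Int.natCast_natAbs]; simp
        rw [this]
        push_cast
        rfl
      have h7 : (H : ℝ) < n := by exact_mod_cast (mem_Ioc.1 hnI).1
      have h8 := (abs_le.1 (show |(b : ℝ)| ≤ H / 2 by linarith)).1
      have h9 := le_abs_self ((a : ℝ) * n + b)
      have h10 : 1 * (n : ℝ) ≤ a * n := mul_le_mul_of_nonneg_right (by exact_mod_cast s1) (Nat.cast_nonneg _)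
      have h11 : (H : ℝ) ^ δ ≤ (H : ℝ) ^ (1 / 2 : ℝ) := Real.rpow_le_rpow_of_exponent_le hH1.le hδ3
      have h12 : (H : ℝ) ^ (1 / 2 : ℝ) * (H : ℝ) ^ (1 / 2 : ℝ) = H := by
        rw [← Real.rpow_add hH0]
        norm_num
      nlinarith
    · rcases hpp.dvd_or_dvd h3 with h4 | h4
      · have h5 := t3 p hp h4
        have h6 : (H : ℝ) ^ δ < (H : ℝ) ^ (gF / (4 * Lam r)) := Real.rpow_lt_rpow_of_exponent_lt hH1 hδ2
        linarith
      · have h5 := t4 p hp h4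
        linarith
  · calc ε * c * (H * V (fn (L1 a b * (Fc F a b * P))) 1 H) = ε * (c * (H * V (fn (L1 a b * (Fc F a b * P))) 1 H)) := by ring
      _ ≤ ε * (ptsF F r (gF / (4 * Lam r)) δ a b P H).card := mul_le_mul_of_nonneg_left hcntH hε.le
      _ ≤ _ := hSc

end Pool.Agent.Zk41.P5
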